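import Pool.Agent.H35.TW2.Tri

set_option autoImplicit false

namespace Pool.Agent.H35.TW2

open Finset Classical

variable {V : Type*} [Fintype V]

/-- The graph `F` with all edges outside `W` removed. -/
def restr (F : SimpleGraph V) (W : Finset V) : SimpleGraph V where
  Adj x y := F.Adj x y ∧ x ∈ W ∧ y ∈ W
  symm := ⟨fun _ _ h => ⟨h.1.symm, h.2.2, h.2.1⟩⟩
  loopless := ⟨fun _ h => F.irrefl h.1⟩

lemma restr_le (F : SimpleGraph V) (W : Finset V) : restr F W ≤ F := fun _ _ h => h.1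

lemma Pr_restr (F : SimpleGraph V) (W : Finset V) : (Pr (restr F W)).card = EE F W := by
  unfold EE
  have : Pr (restr F W) = W.biUnion (fun v => (nb F W v).image (fun w => (v, w))) := by
    ext ⟨x, y⟩
    simp only [mem_Pr, restr, mem_biUnion, mem_image, mem_nb, Prod.mk.injEq]
    constructor
    · rintro ⟨h, hx, hy⟩
      exact ⟨x, hx, y, ⟨hy, h⟩, rfl, rfl⟩
    · rintro ⟨x', hx, y', ⟨hy, h⟩, rfl, rfl⟩
      exact ⟨h, hx, hy⟩
  rw [this, card_biUnion]
  · apply sum_congr rfl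
    intro v _
    exact card_image_of_injective _ (fun a b h => (Prod.mk.inj h).2)
  · intro a _ b _ hab
    rw [Function.onFun, Finset.disjoint_left]
    rintro ⟨x, y⟩ h1 h2
    simp only [mem_image, Prod.mk.injEq] at h1 h2
    obtain ⟨_, _, rfl, _⟩ := h1
    obtain ⟨_, _, rfl, _⟩ := h2
    exact hab rfl

lemma Tr_restr (F : SimpleGraph V) (W : Finset V) :
    (Tr (restr F W)).card = ∑ v ∈ W, EE F (nb F W v) := by
  have : Tr (restr F W) = W.biUnion (fun v => (Pr (restr F (nb F W v))).image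
      (fun w => (v, w))) := by
    ext ⟨x, y, z⟩
    simp only [mem_Tr, mem_Pr, restr, mem_biUnion, mem_image, mem_nb, Prod.mk.injEq, Prod.exists]
    constructor
    · rintro ⟨⟨hxy, hx, hy⟩, ⟨hyz, _, hz⟩, ⟨hxz, _⟩⟩
      exact ⟨x, hx, y, z, ⟨hyz, ⟨hy, hxy⟩, ⟨hz, hxz⟩⟩, rfl, rfl, rfl⟩
    · rintro ⟨x', hx, y', z', ⟨hyz, ⟨hy, hxy⟩, ⟨hz, hxz⟩⟩, rfl, rfl, rfl⟩
      exact ⟨⟨hxy, hx, hy⟩, ⟨hyz, hy, hz⟩, ⟨hxz, hx, hz⟩⟩
  rw [this, card_biUnion]
  · apply sum_congr rfl
    intro v _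
    rw [card_image_of_injective _ (fun a b h => (Prod.mk.inj h).2), Pr_restr]
  · intro a _ b _ hab
    rw [Function.onFun, Finset.disjoint_left]
    rintro ⟨x, y⟩ h1 h2
    simp only [mem_image, Prod.mk.injEq] at h1 h2
    obtain ⟨_, _, rfl, _⟩ := h1
    obtain ⟨_, _, rfl, _⟩ := h2
    exact hab rfl

/-- The independence number is at least a constant times the average degree. -/
theorem large_indep (k : ℕ) (F : SimpleGraph V)
    (hF : ∀ F' : SimpleGraph V, F' ≤ F → (∃ a b, F'.Adj a b) →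
      ∃ a b, F'.Adj a b ∧ (cn F' a b).card < k) (W : Finset V) :
    ∃ I ⊆ W, Ind F I ∧ EE F W ≤ (3 * k + 1) * I.card * W.card := by
  rcases W.eq_empty_or_nonempty with rfl | hne
  · exact ⟨∅, by simp, fun a ha => by simp at ha, by simp [EE]⟩
  have hT : ∀ v, ∃ I ⊆ nb F W v, Ind F I ∧
      (nb F W v).card ^ 2 ≤ I.card * (EE F (nb F W v) + (nb F W v).card) :=
    fun v => turan F _ (nb F W v) rfl
  choose J hJs hJi hJc using hT
  obtain ⟨v0, hv0, hmax⟩ := W.exists_max_image (fun v => (J v).card) hne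
  refine ⟨J v0, (hJs v0).trans (filter_subset _ _), hJi v0, ?_⟩
  set A := (J v0).card with hA
  have h1 : ∑ v ∈ W, (nb F W v).card ^ 2 ≤ A * (∑ v ∈ W, EE F (nb F W v) + EE F W) := by
    calc ∑ v ∈ W, (nb F W v).card ^ 2
        ≤ ∑ v ∈ W, A * (EE F (nb F W v) + (nb F W v).card) := by
          apply sum_le_sum
          intro v hv
          exact (hJc v).trans (Nat.mul_le_mul_right _ (hmax v hv))
      _ = _ := by rw [← mul_sum, sum_add_distrib]; rfl
  have h2 : ∑ v ∈ W, EE F (nb F W v) ≤ 3 * k * EE F W := by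
    rw [← Tr_restr, ← Pr_restr]
    exact few_triangles k _ _ le_rfl (fun F' hF' => hF F' (hF'.trans (restr_le F W)))
  have h3 : (EE F W) ^ 2 ≤ W.card * ∑ v ∈ W, (nb F W v).card ^ 2 := by
    unfold EE
    exact sq_sum_le_card_mul_sum_sq
  have h4 : (EE F W) ^ 2 ≤ W.card * (A * ((3 * k + 1) * EE F W)) := by
    refine h3.trans (Nat.mul_le_mul_left _ (h1.trans (Nat.mul_le_mul_left _ ?_)))
    nlinarith
  rcases Nat.eq_zero_or_pos (EE F W) with h0 | h0
  · rw [h0]; exact Nat.zero_le _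
  · have h5 : EE F W * EE F W ≤ EE F W * ((3 * k + 1) * A * W.card) := by
      calc EE F W * EE F W = (EE F W) ^ 2 := by ring
        _ ≤ _ := h4
        _ = _ := by ring
    exact Nat.le_of_mul_le_mul_left h5 h0

end Pool.Agent.H35.TW2
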