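import Mathlib

set_option autoImplicit false

namespace Pool.Agent.H35.TW2

open Finset Classical

variable {V : Type*}

/-- Neighbours of `v` inside `W`. -/
noncomputable def nb (F : SimpleGraph V) (W : Finset V) (v : V) : Finset V :=
  W.filter (fun w => F.Adj v w)

/-- Number of ordered pairs of adjacent vertices inside `W`. -/
noncomputable def EE (F : SimpleGraph V) (W : Finset V) : ℕ :=
  ∑ v ∈ W, (nb F W v).card

/-- Independent set. -/
def Ind (F : SimpleGraph V) (I : Finset V) : Prop :=
  ∀ a ∈ I, ∀ b ∈ I, ¬ F.Adj a b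

lemma mem_nb {F : SimpleGraph V} {W : Finset V} {v w : V} :
    w ∈ nb F W v ↔ w ∈ W ∧ F.Adj v w := by
  simp [nb]

lemma nb_mono (F : SimpleGraph V) {W W' : Finset V} (h : W' ⊆ W) (v : V) :
    nb F W' v ⊆ nb F W v := by
  intro w hw
  rw [mem_nb] at *
  exact ⟨h hw.1, hw.2⟩

/-- arithmetic step of Turán's bound -/
lemma turan_arith (n' a i' X : ℕ) (h : n' ^ 2 ≤ i' * X) :
    (n' + a) ^ 2 ≤ (i' + 1) * (X + a ^ 2) := by
  have key : 2 * n' * a ≤ X + i' * a ^ 2 := by
    by_contra hlt
    push Not at hlt
    have h1 : (X + i' * a ^ 2) ^ 2 < (2 * n' * a) ^ 2 := Nat.pow_lt_pow_left hlt (by norm_num)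
    have h2 : 4 * (i' * X) * a ^ 2 ≤ (X + i' * a ^ 2) ^ 2 := by
      zify
      nlinarith [sq_nonneg ((X : ℤ) - i' * a ^ 2)]
    have h3 : (2 * n' * a) ^ 2 ≤ 4 * (i' * X) * a ^ 2 := by
      have : (2 * n' * a) ^ 2 = 4 * n' ^ 2 * a ^ 2 := by ring
      rw [this]
      gcongr
    omega
  nlinarith

/-- Turán's bound: a set `S` contains an independent set `I` with `|S|² ≤ |I| (E(S) + |S|)`. -/
lemma turan (F : SimpleGraph V) : ∀ (n : ℕ) (S : Finset V), S.card = n →
    ∃ I ⊆ S, Ind F I ∧ S.card ^ 2 ≤ I.card * (EE F S + S.card) := by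
  intro n
  induction n using Nat.strong_induction_on with
  | _ n ih =>
    intro S hS
    rcases S.eq_empty_or_nonempty with rfl | hne
    · exact ⟨∅, by simp, fun a ha => by simp at ha, by simp⟩
    obtain ⟨v, hv, hmin⟩ := S.exists_min_image (fun v => (nb F S v).card) hne
    set δ := (nb F S v).card with hδ
    set B := insert v (nb F S v) with hB
    have hvn : v ∉ nb F S v := by
      rw [mem_nb]
      exact fun h => F.irrefl h.2
    have hBS : B ⊆ S := by
      intro w hw
      rw [hB, mem_insert] at hw
      rcases hw with rfl | hw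
      · exact hv
      · exact (mem_nb.1 hw).1
    have hBc : B.card = δ + 1 := by
      rw [hB, card_insert_of_notMem hvn]
    set S' := S \ B with hS'
    have hS'c : S'.card + (δ + 1) = S.card := by
      rw [hS', ← hBc]
      exact card_sdiff_add_card_eq_card hBS
    obtain ⟨I', hI'S, hI', hcard⟩ := ih S'.card (by omega) S' rfl
    refine ⟨insert v I', ?_, ?_, ?_⟩
    · intro w hw
      rw [mem_insert] at hw
      rcases hw with rfl | hw
      · exact hv
      · exact (mem_sdiff.1 (hI'S hw)).1
    · have hva : ∀ w ∈ I', ¬ F.Adj v w := by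
        intro w hw hadj
        have := hI'S hw
        rw [hS', mem_sdiff] at this
        exact this.2 (mem_insert_of_mem (mem_nb.2 ⟨this.1, hadj⟩))
      intro a ha b hb
      rw [mem_insert] at ha hb
      rcases ha with rfl | ha
      · rcases hb with rfl | hb
        · exact F.irrefl
        · exact hva b hb
      · rcases hb with rfl | hb
        · exact fun h => hva a ha h.symm
        · exact hI' a ha b hb
    · have hvI : v ∉ I' := by
        intro h
        have := hI'S h
        rw [hS', mem_sdiff] at this
        exact this.2 (mem_insert_self _ _)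
      rw [card_insert_of_notMem hvI]
      have hE : EE F S' + (δ + 1) * δ ≤ EE F S := by
        have h1 : EE F S = ∑ w ∈ S', (nb F S w).card + ∑ w ∈ B, (nb F S w).card := by
          unfold EE
          rw [hS', sum_sdiff hBS]
        rw [h1]
        apply Nat.add_le_add
        · unfold EE
          apply sum_le_sum
          intro w _
          exact card_le_card (nb_mono F (by rw [hS']; exact sdiff_subset) w)
        · rw [← hBc]
          calc B.card * δ = ∑ _w ∈ B, δ := by simp
            _ ≤ ∑ w ∈ B, (nb F S w).card := by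
              apply sum_le_sum
              intro w hw
              exact hmin w (hBS hw)
      have h2 := turan_arith S'.card (δ + 1) I'.card (EE F S' + S'.card) hcard
      rw [hS'c] at h2
      refine h2.trans (Nat.mul_le_mul_left _ ?_)
      nlinarith

end Pool.Agent.H35.TW2
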