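import Pool.Agent.H35.TW2.Basic

set_option autoImplicit false

namespace Pool.Agent.H35.TW2

open Finset Classical

variable {V : Type*} [Fintype V]

lemma sum_pow_le (D : ℕ) (n : ℕ) :
    ∑ i ∈ range n, (if 2 ^ i ≤ D then 2 ^ i else 0) ≤ 2 * D ∧
    ∑ i ∈ range n, (if 2 ^ i ≤ D then 2 ^ i else 0) < 2 ^ n := by
  induction n with
  | zero => simp
  | succ n ih =>
    rw [sum_range_succ]
    split_ifs with h
    · constructor
      · omega
      · rw [pow_succ]; omega
    · constructor
      · omega
      · rw [pow_succ]; omega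

/-- Extension of a partial embedding to all vertices of small degree. -/
theorem finish {p : ℕ} (H : SimpleGraph (Fin p)) (F : SimpleGraph V) (N M : ℕ) (W : Finset V)
    (hM : 1 ≤ M) (hp : 8 * p < N) (hW : N ≤ 2 * W.card)
    (hdeg : ∀ v ∈ W, 8 * M * (nb F W v).card ≤ N) (I : Finset V) (hIW : I ⊆ W) (hI : Ind F I)
    (hc : (univ.filter (fun x : Fin p => M ≤ (nb H univ x).card)).card ≤ I.card) :
    ∃ f : Fin p → V, Function.Injective f ∧ ∀ x y, H.Adj x y → ¬ F.Adj (f x) (f y) := by
  set X := univ.filter (fun x : Fin p => M ≤ (nb H univ x).card) with hX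
  have hWne : W.Nonempty := by
    rw [← card_pos]
    omega
  obtain ⟨w0, hw0⟩ := hWne
  obtain ⟨e⟩ : Nonempty ({x // x ∈ X} ↪ {v // v ∈ I}) :=
    Function.Embedding.nonempty_of_card_le (by simpa using hc)
  have main : ∀ Y : Finset (Fin p), Disjoint X Y → ∃ f : Fin p → V,
      (∀ x ∈ X ∪ Y, f x ∈ W) ∧ (∀ x ∈ X ∪ Y, ∀ y ∈ X ∪ Y, f x = f y → x = y) ∧
      (∀ x ∈ X ∪ Y, ∀ y ∈ X ∪ Y, H.Adj x y → ¬ F.Adj (f x) (f y)) := by
    intro Y
    induction Y using Finset.induction_on with
    | empty =>
      intro _
      refine ⟨fun x => if h : x ∈ X then (e ⟨x, h⟩).1 else w0, ?_, ?_, ?_⟩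
      · intro x hx
        rw [union_empty] at hx
        simp only [hx, dif_pos]
        exact hIW (e ⟨x, hx⟩).2
      · intro x hx y hy hxy
        rw [union_empty] at hx hy
        simp only [hx, hy, dif_pos] at hxy
        have := e.injective (Subtype.ext hxy)
        exact congrArg Subtype.val this
      · intro x hx y hy _
        rw [union_empty] at hx hy
        simp only [hx, hy, dif_pos]
        exact hI _ (e ⟨x, hx⟩).2 _ (e ⟨y, hy⟩).2
    | insert x Y hxY ih =>
      intro hdisj
      rw [disjoint_insert_right] at hdisj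
      obtain ⟨f, hfW, hfi, hfa⟩ := ih hdisj.2
      set Z := X ∪ Y with hZ
      have hxZ : x ∉ Z := by
        rw [hZ, mem_union]
        exact fun h => h.elim hdisj.1 hxY
      have hdx : (nb H univ x).card < M := by
        have := hdisj.1
        rw [hX, mem_filter] at this
        simpa using this
      set Bad := ((nb H univ x).filter (fun y => y ∈ Z)).biUnion (fun y => nb F W (f y)) ∪
        Z.image f with hBad
      have hBadc : 8 * Bad.card ≤ N + 8 * p := by
        have h1 : Bad.card ≤ ∑ y ∈ (nb H univ x).filter (fun y => y ∈ Z), (nb F W (f y)).card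
            + p := by
          refine (card_union_le _ _).trans (Nat.add_le_add card_biUnion_le ?_)
          exact card_image_le.trans ((card_le_univ _).trans (by simp))
        have h2 : M * (8 * ∑ y ∈ (nb H univ x).filter (fun y => y ∈ Z), (nb F W (f y)).card)
            ≤ M * N := by
          calc M * (8 * ∑ y ∈ (nb H univ x).filter (fun y => y ∈ Z), (nb F W (f y)).card)
              = ∑ y ∈ (nb H univ x).filter (fun y => y ∈ Z), 8 * M * (nb F W (f y)).card := by
                rw [← mul_sum]; ring
            _ ≤ ∑ y ∈ (nb H univ x).filter (fun y => y ∈ Z), N := by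
                apply sum_le_sum
                intro y hy
                exact hdeg _ (hfW y (mem_filter.1 hy).2)
            _ = ((nb H univ x).filter (fun y => y ∈ Z)).card * N := by simp
            _ ≤ M * N := Nat.mul_le_mul_right _ ((card_filter_le _ _).trans hdx.le)
        have h3 := Nat.le_of_mul_le_mul_left h2 hM
        omega
      obtain ⟨c, hcW, hcB⟩ : ∃ c ∈ W, c ∉ Bad :=
        exists_mem_notMem_of_card_lt_card (by omega)
      have hcZ : ∀ y ∈ Z, f y ≠ c := by
        intro y hy h
        exact hcB (mem_union_right _ (mem_image.2 ⟨y, hy, h⟩))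
      have hcA : ∀ y ∈ Z, H.Adj x y → ¬ F.Adj (f y) c := by
        intro y hy hxy hF
        apply hcB
        apply mem_union_left
        rw [mem_biUnion]
        exact ⟨y, mem_filter.2 ⟨mem_nb.2 ⟨mem_univ _, hxy⟩, hy⟩, mem_nb.2 ⟨hcW, hF⟩⟩
      have hmem : ∀ y ∈ X ∪ insert x Y, y ≠ x → y ∈ Z := by
        intro y hy hne
        rw [mem_union, mem_insert] at hy
        rw [hZ, mem_union]
        tauto
      refine ⟨Function.update f x c, ?_, ?_, ?_⟩
      · intro y hy
        by_cases h : y = x
        · rw [h, Function.update_self]; exact hcW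
        · rw [Function.update_of_ne h]; exact hfW y (hmem y hy h)
      · intro y hy z hz hyz
        by_cases h1 : y = x
        · by_cases h2 : z = x
          · rw [h1, h2]
          · rw [h1, Function.update_self, Function.update_of_ne h2] at hyz
            exact absurd hyz.symm (hcZ z (hmem z hz h2))
        · by_cases h2 : z = x
          · rw [h2, Function.update_self, Function.update_of_ne h1] at hyz
            exact absurd hyz (hcZ y (hmem y hy h1))
          · rw [Function.update_of_ne h1, Function.update_of_ne h2] at hyz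
            exact hfi y (hmem y hy h1) z (hmem z hz h2) hyz
      · intro y hy z hz hyz
        by_cases h1 : y = x
        · have h2 : z ≠ x := fun h => hyz.ne (h1.trans h.symm)
          rw [h1, Function.update_self, Function.update_of_ne h2]
          exact fun h => hcA z (hmem z hz h2) (h1 ▸ hyz) h.symm
        · by_cases h2 : z = x
          · rw [h2, Function.update_self, Function.update_of_ne h1]
            exact hcA y (hmem y hy h1) (h2 ▸ hyz.symm)
          · rw [Function.update_of_ne h1, Function.update_of_ne h2]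
            exact hfa y (hmem y hy h1) z (hmem z hz h2) hyz
  obtain ⟨f, _, h2, h3⟩ := main (univ \ X) disjoint_sdiff
  have hu : X ∪ (univ \ X) = univ := by simp
  rw [hu] at h2 h3
  exact ⟨f, fun x y h => h2 x (mem_univ _) y (mem_univ _) h,
    fun x y h => h3 x (mem_univ _) y (mem_univ _) h⟩

/-- The criterion. -/
theorem embed_H {p : ℕ} (K N : ℕ) (hK : 1 ≤ K) (F : SimpleGraph V) (hV : Fintype.card V = N)
    (hA : ∀ W : Finset V, ∃ I ⊆ W, Ind F I ∧ EE F W ≤ K * I.card * W.card)
    (H : SimpleGraph (Fin p)) (hd1 : ∀ x, 1 ≤ (nb H univ x).card)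
    (hN : 64 * K * ∑ x, (nb H univ x).card ≤ N) :
    ∃ f : Fin p → V, Function.Injective f ∧ ∀ x y, H.Adj x y → ¬ F.Adj (f x) (f y) := by
  rcases Nat.eq_zero_or_pos p with rfl | hp
  · exact ⟨Fin.elim0, fun a => a.elim0, fun a => a.elim0⟩
  set S := ∑ x, (nb H univ x).card with hS
  have hpS : p ≤ S := by
    calc p = ∑ _x : Fin p, 1 := by simp
      _ ≤ S := sum_le_sum (fun x _ => hd1 x)
  have hKS : S ≤ K * S := Nat.le_mul_of_pos_left _ hK
  have hN' : 64 * (K * S) ≤ N := by rw [← mul_assoc]; exact hN
  have hpN : 8 * p < N := by omega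
  set P : ℕ → ℕ := fun i => (univ.filter (fun x : Fin p => 2 ^ i ≤ (nb H univ x).card)).card
    with hP
  have hsum : ∀ n, ∑ i ∈ range n, 2 ^ i * P i ≤ 2 * S := by
    intro n
    have : ∀ i, 2 ^ i * P i = ∑ x : Fin p, (if 2 ^ i ≤ (nb H univ x).card then 2 ^ i else 0) := by
      intro i
      rw [← sum_filter, sum_const, smul_eq_mul, mul_comm]
    calc ∑ i ∈ range n, 2 ^ i * P i
        = ∑ i ∈ range n, ∑ x : Fin p, (if 2 ^ i ≤ (nb H univ x).card then 2 ^ i else 0) :=
          sum_congr rfl (fun i _ => this i)
      _ = ∑ x : Fin p, ∑ i ∈ range n, (if 2 ^ i ≤ (nb H univ x).card then 2 ^ i else 0) :=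
          sum_comm
      _ ≤ ∑ x : Fin p, 2 * (nb H univ x).card := sum_le_sum (fun x _ => (sum_pow_le _ n).1)
      _ = 2 * S := by rw [← mul_sum]
  have hP0 : P 0 = p := by
    have : univ.filter (fun x : Fin p => 2 ^ 0 ≤ (nb H univ x).card) = univ := by
      apply filter_true_of_mem
      intro x _
      simpa using hd1 x
    simp only [hP, this]
    simp
  have hPp : P p = 0 := by
    simp only [hP, card_eq_zero]
    rw [filter_eq_empty_iff]
    intro x _ h
    have h1 : (nb H univ x).card ≤ p := by
      refine (card_le_univ _).trans ?_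
      simp
    have h2 : p < 2 ^ p := Nat.lt_two_pow_self
    omega
  have main : ∀ n i : ℕ, p ≤ i + n → ∀ W : Finset V,
      N ≤ W.card + 16 * K * ∑ j ∈ range i, 2 ^ j * P j →
      (∀ I ⊆ W, Ind F I → I.card < P i) →
      ∃ f : Fin p → V, Function.Injective f ∧ ∀ x y, H.Adj x y → ¬ F.Adj (f x) (f y) := by
    intro n
    induction n with
    | zero =>
      intro i hi W _ hI
      have h0 : P i = 0 := by
        apply Nat.eq_zero_of_le_zero
        rw [← hPp]
        apply card_le_card
        intro x hx
        rw [mem_filter] at hx ⊢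
        exact ⟨hx.1, (Nat.pow_le_pow_right (by norm_num) hi).trans hx.2⟩
      have := hI ∅ (empty_subset _) (fun a ha => by simp at ha)
      omega
    | succ n ih =>
      intro i hi W hW hI
      set W' := W.filter (fun v => 8 * 2 ^ (i + 1) * (nb F W v).card ≤ N) with hW'
      obtain ⟨I0, hI0W, hI0, hE⟩ := hA W
      have hE' : EE F W ≤ K * P i * N := by
        refine hE.trans ?_
        gcongr
        · exact (hI I0 hI0W hI0).le
        · rw [← hV]; exact card_le_univ _
      have hrem : (W \ W').card ≤ 16 * K * (2 ^ i * P i) := by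
        have h1 : (W \ W').card * N ≤ 8 * 2 ^ (i + 1) * EE F W := by
          calc (W \ W').card * N = ∑ _v ∈ W \ W', N := by simp
            _ ≤ ∑ v ∈ W \ W', 8 * 2 ^ (i + 1) * (nb F W v).card := by
              apply sum_le_sum
              intro v hv
              rw [mem_sdiff, hW', mem_filter] at hv
              have := hv.2
              push Not at this
              exact (this hv.1).le
            _ ≤ ∑ v ∈ W, 8 * 2 ^ (i + 1) * (nb F W v).card :=
              sum_le_sum_of_subset sdiff_subset
            _ = _ := by rw [← mul_sum]; rfl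
        have h2 : (W \ W').card * N ≤ (16 * K * (2 ^ i * P i)) * N := by
          calc _ ≤ 8 * 2 ^ (i + 1) * EE F W := h1
            _ ≤ 8 * 2 ^ (i + 1) * (K * P i * N) := Nat.mul_le_mul_left _ hE'
            _ = _ := by rw [pow_succ]; ring
        exact Nat.le_of_mul_le_mul_right h2 (by omega)
      have hcW' : N ≤ W'.card + 16 * K * ∑ j ∈ range (i + 1), 2 ^ j * P j := by
        have h1 : (W \ W').card + W'.card = W.card :=
          card_sdiff_add_card_eq_card (filter_subset _ _)
        rw [sum_range_succ, mul_add]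
        omega
      have hhalf : N ≤ 2 * W'.card := by
        have h1 := hsum (i + 1)
        have h2 : 16 * K * ∑ j ∈ range (i + 1), 2 ^ j * P j ≤ 16 * K * (2 * S) :=
          Nat.mul_le_mul_left _ h1
        have h3 : 16 * K * (2 * S) = 32 * (K * S) := by ring
        omega
      by_cases hbig : ∃ I ⊆ W', Ind F I ∧ P (i + 1) ≤ I.card
      · obtain ⟨I, hIW', hI', hPI⟩ := hbig
        refine finish H F N (2 ^ (i + 1)) W' Nat.one_le_two_pow hpN hhalf ?_ I hIW' hI' hPI
        intro v hv
        rw [hW', mem_filter] at hv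
        refine le_trans (Nat.mul_le_mul_left _ (card_le_card (nb_mono F ?_ v))) hv.2
        exact filter_subset _ _
      · push Not at hbig
        exact ih (i + 1) (by omega) W' hcW' hbig
  by_cases hbig : ∃ I ⊆ (univ : Finset V), Ind F I ∧ P 0 ≤ I.card
  · obtain ⟨I, _, hI, hPI⟩ := hbig
    obtain ⟨e⟩ : Nonempty (Fin p ↪ {v // v ∈ I}) :=
      Function.Embedding.nonempty_of_card_le (by rw [hP0] at hPI; simpa using hPI)
    exact ⟨fun x => (e x).1, fun x y h => e.injective (Subtype.ext h),
      fun x y _ => hI _ (e x).2 _ (e y).2⟩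
  · push Not at hbig
    refine main p 0 (by omega) univ ?_ hbig
    rw [card_univ, hV]
    omega

end Pool.Agent.H35.TW2
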