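import Pool.Agent.H35.TW2.Basic
import Pool.Agent.H35.TW2.Crit
import Pool.Agent.H89.RSL.Ext

set_option autoImplicit false

namespace Pool.Agent.H35.TW2

open Finset Classical Pool.Agent.H89.RSL

variable {α β : Type*}

lemma dg_eq (F : SimpleGraph β) (x : β) (W : Finset β) : dg F x W = (nb F W x).card := by
  unfold dg nb
  congr

/-- Extension of a partial embedding to all vertices of small degree. -/
theorem finish_gen (H : SimpleGraph α) (F : SimpleGraph β) (W : Finset α) (d : α → ℕ)
    (hd : ∀ x ∈ W, (nb H W x).card ≤ d x) (N M : ℕ) (U : Finset β)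
    (hM : 1 ≤ M) (hp : 8 * W.card < N) (hU : N ≤ 2 * U.card)
    (hdeg : ∀ v ∈ U, 8 * M * (nb F U v).card ≤ N) (I : Finset β) (hIU : I ⊆ U) (hI : Ind F I)
    (hc : (W.filter (fun x => M ≤ d x)).card ≤ I.card) : Emb H F W U := by
  have hUne : U.Nonempty := by
    rw [← card_pos]
    omega
  have : Nonempty β := ⟨hUne.choose⟩
  have h1 : Emb H F (W.filter (fun x => M ≤ d x)) U := (indep_emb hI hc).mono hIU
  have key : ∀ X : Finset α, X ⊆ W → (∀ v ∈ X, d v < M) →
      Emb H F (W.filter (fun x => M ≤ d x) ∪ X) U := by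
    intro X
    induction X using Finset.induction_on with
    | empty =>
      intro _ _
      rwa [union_empty]
    | insert x X hxX ih =>
      intro hXW hXd
      have h0 := ih ((subset_insert _ _).trans hXW) (fun v hv => hXd v (mem_insert_of_mem hv))
      have hxW : x ∈ W := hXW (mem_insert_self _ _)
      have hxd : d x < M := hXd x (mem_insert_self _ _)
      set Z := W.filter (fun x => M ≤ d x) ∪ X with hZ
      have hZW : Z ⊆ W := union_subset (filter_subset _ _) ((subset_insert _ _).trans hXW)
      have hxZ : x ∉ Z := by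
        rw [hZ, mem_union, mem_filter]
        rintro (h | h)
        · omega
        · exact hxX h
      have hcZ : Z.card + 1 ≤ W.card := by
        rw [← card_insert_of_notMem hxZ]
        exact card_le_card (insert_subset hxW hZW)
      rw [union_insert, ← hZ]
      refine ext_one x hxZ h0 (M - 1) (N / (8 * M)) ?_ ?_ ?_
      · rw [dg_eq]
        have := card_le_card (nb_mono H (insert_subset hxW hZW) x)
        have := hd x hxW
        omega
      · intro y hy
        rw [dg_eq, Nat.le_div_iff_mul_le (by omega)]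
        calc (nb F U y).card * (8 * M) = 8 * M * (nb F U y).card := by ring
          _ ≤ N := hdeg y hy
      · have h2 : (M - 1) * (N / (8 * M)) ≤ N / 8 := by
          calc (M - 1) * (N / (8 * M)) ≤ M * (N / (8 * M)) := Nat.mul_le_mul_right _ (by omega)
            _ = M * (N / 8 / M) := by rw [Nat.div_div_eq_div_mul]
            _ ≤ N / 8 := Nat.mul_div_le _ _
        omega
  have := key (W.filter (fun x => d x < M)) (filter_subset _ _)
    (fun v hv => (mem_filter.1 hv).2)
  have hu : W.filter (fun x => M ≤ d x) ∪ W.filter (fun x => d x < M) = W := by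
    ext x
    simp only [mem_union, mem_filter]
    constructor
    · rintro (h | h) <;> exact h.1
    · intro h
      by_cases hx : M ≤ d x
      · exact Or.inl ⟨h, hx⟩
      · exact Or.inr ⟨h, by omega⟩
  rwa [hu] at this

/-- The criterion, for subsets. -/
theorem embed_gen (K : ℕ) (hK : 1 ≤ K) (F : SimpleGraph β) (V : Finset β)
    (hA : ∀ U ⊆ V, ∃ I ⊆ U, Ind F I ∧ EE F U ≤ K * I.card * U.card)
    (H : SimpleGraph α) (W : Finset α) (hWne : W.Nonempty) (d : α → ℕ)
    (hd : ∀ x ∈ W, (nb H W x).card ≤ d x) (hd1 : ∀ x ∈ W, 1 ≤ d x)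
    (hN : 64 * K * ∑ x ∈ W, d x ≤ V.card) : Emb H F W V := by
  set N := V.card with hNdef
  set S := ∑ x ∈ W, d x with hS
  have hpS : W.card ≤ S := by
    calc W.card = ∑ _x ∈ W, 1 := by simp
      _ ≤ S := sum_le_sum hd1
  have hWpos : 0 < W.card := card_pos.2 hWne
  have hKS : S ≤ K * S := Nat.le_mul_of_pos_left _ hK
  have hN' : 64 * (K * S) ≤ N := by rw [← mul_assoc]; exact hN
  have hpN : 8 * W.card < N := by omega
  have hVne : V.Nonempty := by
    rw [← card_pos]; omega
  have : Nonempty β := ⟨hVne.choose⟩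
  set P : ℕ → ℕ := fun i => (W.filter (fun x => 2 ^ i ≤ d x)).card with hP
  have hsum : ∀ n, ∑ i ∈ range n, 2 ^ i * P i ≤ 2 * S := by
    intro n
    have : ∀ i, 2 ^ i * P i = ∑ x ∈ W, (if 2 ^ i ≤ d x then 2 ^ i else 0) := by
      intro i
      rw [← sum_filter, sum_const, smul_eq_mul, mul_comm]
    calc ∑ i ∈ range n, 2 ^ i * P i
        = ∑ i ∈ range n, ∑ x ∈ W, (if 2 ^ i ≤ d x then 2 ^ i else 0) :=
          sum_congr rfl (fun i _ => this i)
      _ = ∑ x ∈ W, ∑ i ∈ range n, (if 2 ^ i ≤ d x then 2 ^ i else 0) :=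
          sum_comm
      _ ≤ ∑ x ∈ W, 2 * d x := sum_le_sum (fun x _ => (sum_pow_le _ n).1)
      _ = 2 * S := by rw [← mul_sum]
  have hP0 : P 0 = W.card := by
    have : W.filter (fun x => 2 ^ 0 ≤ d x) = W := by
      apply filter_true_of_mem
      intro x hx
      simpa using hd1 x hx
    simp only [hP, this]
  have hPS : P S = 0 := by
    simp only [hP, card_eq_zero]
    rw [filter_eq_empty_iff]
    intro x hx h
    have h1 : d x ≤ S := single_le_sum (f := d) (fun _ _ => Nat.zero_le _) hx
    have h2 : S < 2 ^ S := Nat.lt_two_pow_self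
    omega
  have main : ∀ n i : ℕ, S ≤ i + n → ∀ U ⊆ V,
      N ≤ U.card + 16 * K * ∑ j ∈ range i, 2 ^ j * P j →
      (∀ I ⊆ U, Ind F I → I.card < P i) → Emb H F W V := by
    intro n
    induction n with
    | zero =>
      intro i hi U _ _ hI
      have h0 : P i = 0 := by
        apply Nat.eq_zero_of_le_zero
        rw [← hPS]
        apply card_le_card
        intro x hx
        rw [mem_filter] at hx ⊢
        exact ⟨hx.1, (Nat.pow_le_pow_right (by norm_num) hi).trans hx.2⟩
      have := hI ∅ (empty_subset _) (fun a ha => by simp at ha)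
      omega
    | succ n ih =>
      intro i hi U hUV hU hI
      set U' := U.filter (fun v => 8 * 2 ^ (i + 1) * (nb F U v).card ≤ N) with hU'
      obtain ⟨I0, hI0U, hI0, hE⟩ := hA U hUV
      have hE' : EE F U ≤ K * P i * N := by
        refine hE.trans ?_
        gcongr
        · exact (hI I0 hI0U hI0).le
        · rw [hNdef]; exact card_le_card hUV
      have hrem : (U \ U').card ≤ 16 * K * (2 ^ i * P i) := by
        have h1 : (U \ U').card * N ≤ 8 * 2 ^ (i + 1) * EE F U := by
          calc (U \ U').card * N = ∑ _v ∈ U \ U', N := by simp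
            _ ≤ ∑ v ∈ U \ U', 8 * 2 ^ (i + 1) * (nb F U v).card := by
              apply sum_le_sum
              intro v hv
              rw [mem_sdiff, hU', mem_filter] at hv
              have := hv.2
              push Not at this
              exact (this hv.1).le
            _ ≤ ∑ v ∈ U, 8 * 2 ^ (i + 1) * (nb F U v).card :=
              sum_le_sum_of_subset sdiff_subset
            _ = _ := by rw [← mul_sum]; rfl
        have h2 : (U \ U').card * N ≤ (16 * K * (2 ^ i * P i)) * N := by
          calc _ ≤ 8 * 2 ^ (i + 1) * EE F U := h1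
            _ ≤ 8 * 2 ^ (i + 1) * (K * P i * N) := Nat.mul_le_mul_left _ hE'
            _ = _ := by rw [pow_succ]; ring
        exact Nat.le_of_mul_le_mul_right h2 (by omega)
      have hcU' : N ≤ U'.card + 16 * K * ∑ j ∈ range (i + 1), 2 ^ j * P j := by
        have h1 : (U \ U').card + U'.card = U.card :=
          card_sdiff_add_card_eq_card (filter_subset _ _)
        rw [sum_range_succ, mul_add]
        omega
      have hhalf : N ≤ 2 * U'.card := by
        have h1 := hsum (i + 1)
        have h2 : 16 * K * ∑ j ∈ range (i + 1), 2 ^ j * P j ≤ 16 * K * (2 * S) :=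
          Nat.mul_le_mul_left _ h1
        have h3 : 16 * K * (2 * S) = 32 * (K * S) := by ring
        omega
      have hU'V : U' ⊆ V := (filter_subset _ _).trans hUV
      by_cases hbig : ∃ I ⊆ U', Ind F I ∧ P (i + 1) ≤ I.card
      · obtain ⟨I, hIU', hI', hPI⟩ := hbig
        refine (finish_gen H F W d hd N (2 ^ (i + 1)) U' Nat.one_le_two_pow hpN hhalf ?_ I hIU'
          hI' hPI).mono hU'V
        intro v hv
        rw [hU', mem_filter] at hv
        refine le_trans (Nat.mul_le_mul_left _ (card_le_card (nb_mono F ?_ v))) hv.2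
        exact filter_subset _ _
      · push Not at hbig
        exact ih (i + 1) (by omega) U' hU'V hcU' hbig
  by_cases hbig : ∃ I ⊆ V, Ind F I ∧ P 0 ≤ I.card
  · obtain ⟨I, hIV, hI, hPI⟩ := hbig
    exact (indep_emb (Γ := F) (I := I) hI (by rw [← hP0]; exact hPI)).mono hIV
  · push Not at hbig
    exact main S 0 (by omega) V (Subset.refl _) (by omega) hbig

end Pool.Agent.H35.TW2
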