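import Pool.Agent.H35.TW2.Pick
import Pool.Agent.H35.TW2.Gen
import Pool.Agent.H89.RSL.Forest

set_option autoImplicit false

namespace Pool.Agent.H35.TW2

open Finset Classical Pool.Agent.H89.RSL

variable {V : Type*} [Fintype V]

lemma EE_erase (F : SimpleGraph V) (W : Finset V) (v : V) (hv : v ∈ W) :
    EE F W ≤ EE F (W.erase v) + 2 * (nb F W v).card := by
  unfold EE
  rw [← add_sum_erase W _ hv]
  have h1 : ∑ w ∈ W.erase v, (nb F W w).card ≤
      ∑ w ∈ W.erase v, (nb F (W.erase v) w).card + (nb F W v).card := by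
    have h2 : (nb F W v).card = ∑ w ∈ W.erase v, (if F.Adj v w then 1 else 0) := by
      rw [← card_filter]
      congr 1
      ext w
      rw [mem_nb, mem_filter, mem_erase]
      constructor
      · rintro ⟨h1, h2⟩
        exact ⟨⟨h2.ne', h1⟩, h2⟩
      · rintro ⟨⟨_, h1⟩, h2⟩
        exact ⟨h1, h2⟩
    rw [h2, ← sum_add_distrib]
    apply sum_le_sum
    intro w hw
    by_cases hvw : F.Adj v w
    · rw [if_pos hvw]
      have : nb F W w ⊆ insert v (nb F (W.erase v) w) := by
        intro y hy
        rw [mem_nb] at hy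
        rw [mem_insert, mem_nb, mem_erase]
        by_cases hyv : y = v
        · exact Or.inl hyv
        · exact Or.inr ⟨⟨hyv, hy.1⟩, hy.2⟩
      exact (card_le_card this).trans (card_insert_le _ _)
    · rw [if_neg hvw]
      have : nb F W w ⊆ nb F (W.erase v) w := by
        intro y hy
        rw [mem_nb] at hy
        rw [mem_nb, mem_erase]
        refine ⟨⟨?_, hy.1⟩, hy.2⟩
        rintro rfl
        exact hvw hy.2.symm
      exact card_le_card this
  omega

lemma exists_min_degree (F : SimpleGraph V) (m : ℕ) : ∀ (n : ℕ) (W : Finset V), W.card = n →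
    2 * m * W.card < EE F W → ∃ S ⊆ W, S.Nonempty ∧ ∀ x ∈ S, m < (nb F S x).card := by
  intro n
  induction n with
  | zero =>
    intro W hW h
    rw [card_eq_zero] at hW
    subst hW
    simp [EE] at h
  | succ n ih =>
    intro W hW h
    by_cases hall : ∀ x ∈ W, m < (nb F W x).card
    · exact ⟨W, Subset.refl _, card_pos.1 (by omega), hall⟩
    · push Not at hall
      obtain ⟨v, hv, hd⟩ := hall
      have h1 := EE_erase F W v hv
      have h2 : (W.erase v).card = n := by rw [card_erase_of_mem hv, hW]; rfl
      obtain ⟨S, hS, hSne, hdeg⟩ := ih (W.erase v) h2 (by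
        rw [h2]
        rw [hW] at h
        have : 2 * m * (n + 1) = 2 * m * n + 2 * m := by ring
        omega)
      exact ⟨S, hS.trans (erase_subset _ _), hSne, hdeg⟩

lemma EE_le_add (F F' : SimpleGraph V) (x : V) (W : Finset V) (hW : W ⊆ nb F' univ x) :
    EE F W ≤ EE F' W + ((Xd F F').filter (fun t => F'.Adj x t.1 ∧ F'.Adj x t.2)).card := by
  rw [← Pr_restr, ← Pr_restr]
  refine le_trans (card_le_card ?_) (card_union_le _ _)
  intro t ht
  rw [mem_Pr] at ht
  obtain ⟨h1, h2, h3⟩ := ht
  rw [mem_union]
  by_cases h : F'.Adj t.1 t.2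
  · left
    rw [mem_Pr]
    exact ⟨h, h2, h3⟩
  · right
    rw [mem_filter, Xd, mem_sdiff, mem_Pr, mem_Pr]
    exact ⟨⟨h1, h⟩, (mem_nb.1 (hW h2)).2, (mem_nb.1 (hW h3)).2⟩

/-- a large subset of the neighbourhood contains a subset with large minimum degree -/
lemma dense_subset (k : ℕ) (hk : 1 ≤ k) (F F' : SimpleGraph V) (A : ℕ)
    (hA : ∀ I : Finset V, Ind F I → I.card ≤ A) (x : V)
    (hu : 1000 * k ^ 2 * A ≤ 4 * (nb F' univ x).card)
    (hX : ((Xd F F').filter (fun t => F'.Adj x t.1 ∧ F'.Adj x t.2)).card ≤ (nb F' univ x).card)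
    (hA1 : 1 ≤ A) (W : Finset V) (hW : W ⊆ nb F' univ x) (hWc : (nb F' univ x).card ≤ 2 * W.card) :
    ∃ S ⊆ W, S.Nonempty ∧ ∀ y ∈ S, k < (nb F' S y).card := by
  apply exists_min_degree F' k W.card W rfl
  by_contra hcon
  push Not at hcon
  obtain ⟨I, _, hI, hc⟩ := turan F _ W rfl
  have h1 := EE_le_add F F' x W hW
  have h2 : EE F W ≤ (2 * k + 2) * W.card := by nlinarith
  have h3 : W.card ^ 2 ≤ A * ((2 * k + 3) * W.card) := by
    calc W.card ^ 2 ≤ I.card * (EE F W + W.card) := hc
      _ ≤ A * ((2 * k + 3) * W.card) := Nat.mul_le_mul (hA I hI) (by nlinarith)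
  have hk2 : 1 ≤ k ^ 2 := Nat.one_le_pow _ _ hk
  have hWpos : 0 < W.card := by
    have : 0 < 1000 * k ^ 2 * A := by positivity
    omega
  have h4 : W.card ≤ A * (2 * k + 3) := by
    have : W.card * W.card ≤ W.card * (A * (2 * k + 3)) := by
      calc W.card * W.card = W.card ^ 2 := by ring
        _ ≤ _ := h3
        _ = _ := by ring
    exact Nat.le_of_mul_le_mul_left this hWpos
  have h5 : 1000 * k ^ 2 * A ≤ 8 * (A * (2 * k + 3)) := by omega
  have h6 : (1000 * k ^ 2) * A ≤ (8 * (2 * k + 3)) * A := by
    calc _ ≤ _ := h5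
      _ = _ := by ring
  have h7 := Nat.le_of_mul_le_mul_right h6 hA1
  nlinarith

/-- Embedding of a forest in the neighbourhood of `x` such that vertices in different classes have
many common neighbours. -/
theorem build_forest (k : ℕ) (hk : 1 ≤ k) (F F' : SimpleGraph V) (A : ℕ)
    (hA : ∀ I : Finset V, Ind F I → I.card ≤ A) (x : V)
    (hu : 1000 * k ^ 2 * A ≤ 4 * (nb F' univ x).card)
    (hX : ((Xd F F').filter (fun t => F'.Adj x t.1 ∧ F'.Adj x t.2)).card ≤ (nb F' univ x).card)
    (hB : 32 * k * ((Bd F' k).filter (fun t => F'.Adj x t.1 ∧ F'.Adj x t.2)).card ≤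
        (nb F' univ x).card ^ 2)
    (hA1 : 1 ≤ A) (G : SimpleGraph (Fin k)) (B : Finset (Fin k)) (comp : Fin k → ℕ)
    (hforest : ∀ S ⊆ B, S.Nonempty → ∃ v ∈ S, dg G v S ≤ 1)
    (hcomp : ∀ u ∈ B, ∀ v ∈ B, G.Adj u v → comp u = comp v) :
    ∃ f : Fin k → V, (∀ v ∈ B, F'.Adj x (f v)) ∧ (∀ u ∈ B, ∀ v ∈ B, f u = f v → u = v) ∧
      (∀ u ∈ B, ∀ v ∈ B, G.Adj u v → F'.Adj (f u) (f v)) ∧
      (∀ u ∈ B, ∀ v ∈ B, comp u ≠ comp v → k ≤ (cn F' (f u) (f v)).card) := by
  set U := nb F' univ x with hU
  set u := U.card with hudef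
  set bd : V → Finset V := fun a => U.filter (fun b => (cn F' a b).card < k) with hbd
  set Po := U.filter (fun a => u < 8 * k * (bd a).card) with hPo
  have hk2 : 1 ≤ k ^ 2 := Nat.one_le_pow _ _ hk
  have hkk : k ≤ k ^ 2 := by nlinarith
  have hu1 : 250 * k ≤ u := by
    have : 1000 * k ≤ 1000 * k ^ 2 * A := by
      calc 1000 * k = 1000 * k * 1 := by ring
        _ ≤ 1000 * k ^ 2 * A := by gcongr
    omega
  have hPoc : 4 * Po.card ≤ u := by
    have h1 : ∑ a ∈ U, (bd a).card =
        ((Bd F' k).filter (fun t => F'.Adj x t.1 ∧ F'.Adj x t.2)).card := by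
      have : (Bd F' k).filter (fun t => F'.Adj x t.1 ∧ F'.Adj x t.2) =
          U.biUnion (fun a => (bd a).image (fun b => (a, b))) := by
        ext ⟨a, b⟩
        simp only [mem_filter, Bd, mem_univ, true_and, mem_biUnion, mem_image, hbd, hU, mem_nb,
          Prod.mk.injEq]
        constructor
        · rintro ⟨h1, h2, h3⟩
          exact ⟨a, h2, b, ⟨h3, h1⟩, rfl, rfl⟩
        · rintro ⟨a', h2, b', ⟨h3, h1⟩, rfl, rfl⟩
          exact ⟨h1, h2, h3⟩
      rw [this, card_biUnion]
      · apply sum_congr rfl
        intro a _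
        rw [card_image_of_injective _ (fun a b h => (Prod.mk.inj h).2)]
      · intro a _ b _ hab
        rw [Function.onFun, Finset.disjoint_left]
        rintro ⟨y, z⟩ h1 h2
        simp only [mem_image, Prod.mk.injEq] at h1 h2
        obtain ⟨_, _, rfl, _⟩ := h1
        obtain ⟨_, _, rfl, _⟩ := h2
        exact hab rfl
    have h2 : Po.card * u ≤ 8 * k * ∑ a ∈ U, (bd a).card := by
      calc Po.card * u = ∑ _a ∈ Po, u := by simp
        _ ≤ ∑ a ∈ Po, 8 * k * (bd a).card := by
          apply sum_le_sum
          intro a ha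
          exact (mem_filter.1 ha).2.le
        _ ≤ ∑ a ∈ U, 8 * k * (bd a).card := sum_le_sum_of_subset (filter_subset _ _)
        _ = _ := by rw [← mul_sum]
    rw [h1] at h2
    have h3 : 4 * Po.card * u ≤ u * u := by
      calc 4 * Po.card * u = 4 * (Po.card * u) := by ring
        _ ≤ 4 * (8 * k * ((Bd F' k).filter (fun t => F'.Adj x t.1 ∧ F'.Adj x t.2)).card) :=
          Nat.mul_le_mul_left _ h2
        _ = 32 * k * ((Bd F' k).filter (fun t => F'.Adj x t.1 ∧ F'.Adj x t.2)).card := by ring
        _ ≤ u ^ 2 := hB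
        _ = u * u := by ring
    exact Nat.le_of_mul_le_mul_right h3 (by omega)
  have hne : Nonempty V := ⟨x⟩
  have main : ∀ j : ℕ, ∃ f : Fin k → V, (∀ v ∈ B, comp v < j → f v ∈ U \ Po) ∧
      (∀ u ∈ B, ∀ v ∈ B, comp u < j → comp v < j → f u = f v → u = v) ∧
      (∀ u ∈ B, ∀ v ∈ B, comp u < j → comp v < j → G.Adj u v → F'.Adj (f u) (f v)) ∧
      (∀ u ∈ B, ∀ v ∈ B, comp u < j → comp v < j → comp u ≠ comp v →
        k ≤ (cn F' (f u) (f v)).card) := by
    intro j
    induction j with
    | zero =>
      exact ⟨fun _ => x, fun _ _ h => absurd h (by omega), fun _ _ _ _ h => absurd h (by omega),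
        fun _ _ _ _ h => absurd h (by omega), fun _ _ _ _ h => absurd h (by omega)⟩
    | succ j ih =>
      obtain ⟨f, hfU, hfi, hfa, hfc⟩ := ih
      set Old := B.filter (fun v => comp v < j) with hOld
      set Forb := Old.image f ∪ Old.biUnion (fun v => bd (f v)) with hForb
      have hOldc : Old.card ≤ k := by
        refine (card_le_univ _).trans ?_
        simp
      have hForbc : 8 * Forb.card ≤ 8 * k + u := by
        have h1 : Forb.card ≤ k + ∑ v ∈ Old, (bd (f v)).card := by
          refine (card_union_le _ _).trans (Nat.add_le_add (card_image_le.trans hOldc)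
            card_biUnion_le)
        have h2 : k * (8 * ∑ v ∈ Old, (bd (f v)).card) ≤ k * u := by
          calc k * (8 * ∑ v ∈ Old, (bd (f v)).card) = ∑ v ∈ Old, 8 * k * (bd (f v)).card := by
                rw [← mul_sum]; ring
            _ ≤ ∑ _v ∈ Old, u := by
                apply sum_le_sum
                intro v hv
                rw [hOld, mem_filter] at hv
                have h3 := hfU v hv.1 hv.2
                rw [mem_sdiff, hPo, mem_filter] at h3
                by_contra h4
                exact h3.2 ⟨h3.1, by omega⟩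
            _ = Old.card * u := by simp
            _ ≤ k * u := Nat.mul_le_mul_right _ hOldc
        have h3 := Nat.le_of_mul_le_mul_left h2 hk
        omega
      set W := (U \ Po) \ Forb with hW
      have hWc : u ≤ 2 * W.card := by
        have h1 : (U \ Po).card + Po.card = U.card :=
          card_sdiff_add_card_eq_card (filter_subset _ _)
        have h2 : (U \ Po).card ≤ W.card + Forb.card := by
          rw [hW]
          exact card_le_card_sdiff_add_card (s := U \ Po) (t := Forb)
        omega
      obtain ⟨S, hSW, hSne, hSd⟩ := dense_subset k hk F F' A hA x hu hX hA1 W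
        (sdiff_subset.trans sdiff_subset) hWc
      have hforest' : ∀ S' ⊆ B.filter (fun v => comp v = j), S'.Nonempty →
          ∃ v ∈ S', dg G v S' ≤ 1 := fun S' hS' h => hforest S' (hS'.trans (filter_subset _ _)) h
      obtain ⟨h, hhS, hhi, hha⟩ := forest_embed G F' (B.filter (fun v => comp v = j)) S hforest' hSne
        (by
          intro y hy
          have h1 := hSd y hy
          rw [dg_eq]
          have h2 : (B.filter (fun v => comp v = j)).card ≤ k := by
            refine (card_le_univ _).trans ?_
            simp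
          omega) (B.filter (fun v => comp v = j)) (Subset.refl _)
      have hhW : ∀ v ∈ B, comp v = j → h v ∈ W := fun v hv hj =>
        hSW (hhS v (mem_filter.2 ⟨hv, hj⟩))
      have hnew : ∀ v ∈ B, comp v = j → ∀ w ∈ B, comp w < j → h v ≠ f w ∧
          k ≤ (cn F' (f w) (h v)).card := by
        intro v hv hj w hw hwj
        have h1 := hhW v hv hj
        rw [hW, mem_sdiff] at h1
        have hwO : w ∈ Old := mem_filter.2 ⟨hw, hwj⟩
        constructor
        · intro he
          exact h1.2 (mem_union_left _ (mem_image.2 ⟨w, hwO, he.symm⟩))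
        · by_contra hlt
          push Not at hlt
          apply h1.2
          apply mem_union_right
          rw [mem_biUnion]
          exact ⟨w, hwO, mem_filter.2 ⟨(mem_sdiff.1 h1.1).1, hlt⟩⟩
      refine ⟨fun v => if comp v < j then f v else h v, ?_, ?_, ?_, ?_⟩
      · intro v hv hvj
        by_cases h1 : comp v < j
        · simp only [h1, if_true]
          exact hfU v hv h1
        · simp only [h1, if_false]
          have := hhW v hv (by omega)
          rw [hW, mem_sdiff] at this
          exact this.1
      · intro v hv w hw hvj hwj hvw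
        by_cases h1 : comp v < j
        · by_cases h2 : comp w < j
          · simp only [h1, h2, if_true] at hvw
            exact hfi v hv w hw h1 h2 hvw
          · simp only [h1, h2, if_true, if_false] at hvw
            exact absurd hvw.symm (hnew w hw (by omega) v hv h1).1
        · by_cases h2 : comp w < j
          · simp only [h1, h2, if_true, if_false] at hvw
            exact absurd hvw (hnew v hv (by omega) w hw h2).1
          · simp only [h1, h2, if_false] at hvw
            exact hhi (by simp only [coe_filter, Set.mem_ofPred_eq]; exact ⟨hv, by omega⟩)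
              (by simp only [coe_filter, Set.mem_ofPred_eq]; exact ⟨hw, by omega⟩) hvw
      · intro v hv w hw hvj hwj hvw
        have hc := hcomp v hv w hw hvw
        by_cases h1 : comp v < j
        · have h2 : comp w < j := by omega
          simp only [h1, h2, if_true]
          exact hfa v hv w hw h1 h2 hvw
        · have h2 : ¬ comp w < j := by omega
          simp only [h1, h2, if_false]
          exact hha v (mem_filter.2 ⟨hv, by omega⟩) w (mem_filter.2 ⟨hw, by omega⟩) hvw
      · intro v hv w hw hvj hwj hvw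
        by_cases h1 : comp v < j
        · by_cases h2 : comp w < j
          · simp only [h1, h2, if_true]
            exact hfc v hv w hw h1 h2 hvw
          · simp only [h1, h2, if_true, if_false]
            exact (hnew w hw (by omega) v hv h1).2
        · by_cases h2 : comp w < j
          · simp only [h1, h2, if_true, if_false]
            have h3 := (hnew v hv (by omega) w hw h2).2
            have : cn F' (h v) (f w) = cn F' (f w) (h v) := by
              ext y
              rw [mem_cn, mem_cn]
              tauto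
            rw [this]
            exact h3
          · omega
  obtain ⟨f, h1, h2, h3, h4⟩ := main (B.sup comp + 1)
  have hlt : ∀ v ∈ B, comp v < B.sup comp + 1 := fun v hv => Nat.lt_succ_of_le (le_sup hv)
  refine ⟨f, ?_, fun u hu v hv => h2 u hu v hv (hlt u hu) (hlt v hv),
    fun u hu v hv => h3 u hu v hv (hlt u hu) (hlt v hv),
    fun u hu v hv => h4 u hu v hv (hlt u hu) (hlt v hv)⟩
  intro v hv
  have := h1 v hv (hlt v hv)
  rw [mem_sdiff, hU, mem_nb] at this
  exact this.1.2

end Pool.Agent.H35.TW2
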