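import Mathlib

set_option autoImplicit false

namespace Pool.Agent.H35.TW2

/-- `G` is Ramsey size linear. -/
def SizeLinear {k : ℕ} (G : SimpleGraph (Fin k)) : Prop :=
  ∃ C : ℕ, ∀ (p : ℕ) (H : SimpleGraph (Fin p)), (∀ v, ∃ w, H.Adj v w) →
    ∀ N : ℕ, C * H.edgeSet.ncard ≤ N → ∀ F : SimpleGraph (Fin N),
      G.IsContained F ∨ H.IsContained Fᶜ

/-- In every graph without `G` the independence number is at least a constant times the average
degree: `e(F) ≤ c α(F) n` for every `G`-free graph `F` with `n` vertices. -/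
def LargeIndep {α : Type} (G : SimpleGraph α) : Prop :=
  ∃ c : ℕ, ∀ (n : ℕ) (F : SimpleGraph (Fin n)), G.IsContained F ∨
    ∃ I : Finset (Fin n), F.IsIndepSet I ∧ F.edgeSet.ncard ≤ c * I.card * n

/-- Treewidth at most two (equivalently: no `K₄` minor): `G` is a subgraph of a graph `G'` on
`{0, …, k - 1}` in which the smaller neighbours of each vertex form a clique with at most two
vertices. -/
def TreewidthLeTwo {α : Type} (G : SimpleGraph α) : Prop :=
  ∃ (k : ℕ) (G' : SimpleGraph (Fin k)), G.IsContained G' ∧
    ∀ v, G'.IsClique {u | u < v ∧ G'.Adj u v} ∧ {u | u < v ∧ G'.Adj u v}.ncard ≤ 2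

/-- The vertices of `G'` joined to `v` that are equal to `x`, in `B` or smaller than `v`. -/
def Back {k : ℕ} (G' : SimpleGraph (Fin k)) (x : Fin k) (B : Set (Fin k)) (v : Fin k) :
    Set (Fin k) :=
  {u | G'.Adj u v ∧ (u = x ∨ u ∈ B ∨ u < v)}

/-- `G` is a subgraph of a graph `G'` built as follows: start with a vertex `x` and a forest on a
set `B` of vertices, with arbitrary edges between `x` and `B`; then add the other vertices one by
one, each joined to at most two of the earlier vertices, where two vertices to which the new vertex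
is joined must be adjacent or must lie in different components of the forest. -/
def Constructible {α : Type} (G : SimpleGraph α) : Prop :=
  ∃ (k : ℕ) (G' : SimpleGraph (Fin k)) (x : Fin k) (B : Set (Fin k)), G.IsContained G' ∧
    x ∉ B ∧ (G'.induce B).IsAcyclic ∧
    ∀ v, v ∉ B → v ≠ x → (Back G' x B v).ncard ≤ 2 ∧
      (Back G' x B v).Pairwise (fun a b => G'.Adj a b ∨
        ∃ (ha : a ∈ B) (hb : b ∈ B), ¬ (G'.induce B).Reachable ⟨a, ha⟩ ⟨b, hb⟩)

end Pool.Agent.H35.TW2
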