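import Pool.Agent.H35.TW2.Build

set_option autoImplicit false

namespace Pool.Agent.H35.TW2

open Finset Classical Pool.Agent.H89.RSL

variable {V : Type*} [Fintype V]

/-- `G'` is built from the vertex `x0`, the forest `B` and further vertices, each with at most two
neighbours among `x0`, `B` and the previous vertices; two such neighbours are adjacent or lie in
different classes of `B`. -/
def Constr {k : ℕ} (G' : SimpleGraph (Fin k)) (x0 : Fin k) (B : Finset (Fin k))
    (comp : Fin k → ℕ) : Prop :=
  x0 ∉ B ∧ (∀ S ⊆ B, S.Nonempty → ∃ v ∈ S, dg G' v S ≤ 1) ∧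
  (∀ u ∈ B, ∀ v ∈ B, G'.Adj u v → comp u = comp v) ∧
  (∀ v, v ∉ B → v ≠ x0 → ∀ a b, (a = x0 ∨ a ∈ B ∨ a < v) → (b = x0 ∨ b ∈ B ∨ b < v) →
    G'.Adj a v → G'.Adj b v → a ≠ b → G'.Adj a b ∨ (a ∈ B ∧ b ∈ B ∧ comp a ≠ comp b)) ∧
  (∀ v, v ∉ B → v ≠ x0 → ∀ a b c, (a = x0 ∨ a ∈ B ∨ a < v) → (b = x0 ∨ b ∈ B ∨ b < v) →
    (c = x0 ∨ c ∈ B ∨ c < v) → G'.Adj a v → G'.Adj b v → G'.Adj c v → a = b ∨ a = c ∨ b = c)

theorem extend_all (k : ℕ) (F' : SimpleGraph V) (hF : ∀ a b, F'.Adj a b → k ≤ (cn F' a b).card)
    (x : V) (hx : ∃ w, F'.Adj x w) (G' : SimpleGraph (Fin k)) (x0 : Fin k) (B : Finset (Fin k))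
    (comp : Fin k → ℕ) (hG : Constr G' x0 B comp) (f0 : Fin k → V)
    (h1 : ∀ v ∈ B, F'.Adj x (f0 v)) (h2 : ∀ u ∈ B, ∀ v ∈ B, f0 u = f0 v → u = v)
    (h3 : ∀ u ∈ B, ∀ v ∈ B, G'.Adj u v → F'.Adj (f0 u) (f0 v))
    (h4 : ∀ u ∈ B, ∀ v ∈ B, comp u ≠ comp v → k ≤ (cn F' (f0 u) (f0 v)).card) :
    ∃ f : Fin k → V, Function.Injective f ∧ ∀ a b, G'.Adj a b → F'.Adj (f a) (f b) := by
  obtain ⟨hx0, -, -, hG1, hG2⟩ := hG
  set Done : ℕ → Fin k → Prop := fun n v => v = x0 ∨ v ∈ B ∨ v.1 < n with hDone
  have main : ∀ n : ℕ, n ≤ k → ∃ f : Fin k → V, (∀ v ∈ B, f v = f0 v) ∧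
      (∀ a b, Done n a → Done n b → f a = f b → a = b) ∧
      (∀ a b, Done n a → Done n b → G'.Adj a b → F'.Adj (f a) (f b)) ∧
      (∀ a, Done n a → ∃ w, F'.Adj (f a) w) := by
    intro n
    induction n with
    | zero =>
      intro _
      have hD : ∀ v, Done 0 v → v = x0 ∨ v ∈ B := by
        rintro v (h | h | h)
        · exact Or.inl h
        · exact Or.inr h
        · omega
      have hfB : ∀ v ∈ B, Function.update f0 x0 x v = f0 v := by
        intro v hv
        rw [Function.update_of_ne]
        rintro rfl
        exact hx0 hv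
      refine ⟨Function.update f0 x0 x, hfB, ?_, ?_, ?_⟩
      · intro a b ha hb hab
        rcases hD a ha with ha' | ha'
        · rcases hD b hb with hb' | hb'
          · rw [ha', hb']
          · rw [ha', Function.update_self, hfB b hb'] at hab
            exact absurd (hab ▸ h1 b hb') F'.irrefl
        · rcases hD b hb with hb' | hb'
          · rw [hb', Function.update_self, hfB a ha'] at hab
            exact absurd (hab.symm ▸ h1 a ha') F'.irrefl
          · rw [hfB a ha', hfB b hb'] at hab
            exact h2 a ha' b hb' hab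
      · intro a b ha hb hab
        rcases hD a ha with ha' | ha'
        · rcases hD b hb with hb' | hb'
          · exact absurd (ha'.trans hb'.symm) hab.ne
          · rw [ha', Function.update_self, hfB b hb']
            exact h1 b hb'
        · rcases hD b hb with hb' | hb'
          · rw [hb', Function.update_self, hfB a ha']
            exact (h1 a ha').symm
          · rw [hfB a ha', hfB b hb']
            exact h3 a ha' b hb' hab
      · intro a ha
        rcases hD a ha with ha' | ha'
        · rw [ha', Function.update_self]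
          exact hx
        · rw [hfB a ha']
          exact ⟨x, (h1 a ha').symm⟩
    | succ n ih =>
      intro hn
      obtain ⟨f, hfB, hinj, hadj, hiso⟩ := ih (by omega)
      set v : Fin k := ⟨n, by omega⟩ with hv
      by_cases hvD : v = x0 ∨ v ∈ B
      · -- already embedded
        have hD : ∀ a, Done (n + 1) a → Done n a := by
          rintro a (h | h | h)
          · exact Or.inl h
          · exact Or.inr (Or.inl h)
          · by_cases h' : a.1 < n
            · exact Or.inr (Or.inr h')
            · have : a = v := Fin.ext (by show a.1 = n; omega)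
              rw [this]
              rcases hvD with h'' | h''
              · exact Or.inl h''
              · exact Or.inr (Or.inl h'')
        exact ⟨f, hfB, fun a b ha hb => hinj a b (hD a ha) (hD b hb),
          fun a b ha hb => hadj a b (hD a ha) (hD b hb), fun a ha => hiso a (hD a ha)⟩
      · push Not at hvD
        obtain ⟨hvx, hvB⟩ := hvD
        have hlt : ∀ a : Fin k, a < v ↔ a.1 < n := fun a => Iff.rfl
        have hnv : ¬ Done n v := by
          rintro (h | h | h)
          · exact hvx h
          · exact hvB h
          · exact absurd h (lt_irrefl n)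
        set used := (univ.filter (fun a : Fin k => Done n a)).image f with hused
        have hus : used.card < k := by
          calc used.card ≤ (univ.filter (fun a : Fin k => Done n a)).card := card_image_le
            _ < (univ : Finset (Fin k)).card := by
              apply card_lt_card
              rw [Finset.ssubset_univ_iff]
              intro h
              have := h.symm ▸ mem_univ v
              rw [mem_filter] at this
              exact hnv this.2
            _ = k := by simp
        have hc : ∃ c : V, c ∉ used ∧ (∀ a : Fin k, Done n a → G'.Adj a v → F'.Adj (f a) c) ∧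
            ∃ w, F'.Adj c w := by
          by_cases h0 : ∃ a, Done n a ∧ G'.Adj a v
          · obtain ⟨a, hav, haa⟩ := h0
            by_cases h1' : ∃ b, Done n b ∧ G'.Adj b v ∧ b ≠ a
            · obtain ⟨b, hbv, hbb, hba⟩ := h1'
              have hcn : k ≤ (cn F' (f a) (f b)).card := by
                rcases hG1 v hvB hvx a b hav hbv haa hbb hba.symm with h | ⟨h, h', h''⟩
                · exact hF _ _ (hadj a b hav hbv h)
                · rw [hfB a h, hfB b h']
                  exact h4 a h b h' h''
              obtain ⟨c, hc, hcu⟩ := exists_mem_notMem_of_card_lt_card (lt_of_lt_of_le hus hcn)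
              rw [mem_cn] at hc
              refine ⟨c, hcu, ?_, f a, hc.1.symm⟩
              intro d hd hdv
              rcases hG2 v hvB hvx a b d hav hbv hd haa hbb hdv with h | h | h
              · exact absurd h.symm hba
              · exact h ▸ hc.1
              · exact h ▸ hc.2
            · push Not at h1'
              obtain ⟨w, hw⟩ := hiso a hav
              obtain ⟨c, hc, hcu⟩ := exists_mem_notMem_of_card_lt_card
                (lt_of_lt_of_le hus (hF _ _ hw))
              rw [mem_cn] at hc
              refine ⟨c, hcu, ?_, f a, hc.1.symm⟩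
              intro d hd hdv
              rw [h1' d hd hdv]
              exact hc.1
          · push Not at h0
            obtain ⟨w, hw⟩ := hx
            obtain ⟨c, hc, hcu⟩ := exists_mem_notMem_of_card_lt_card
              (lt_of_lt_of_le hus (hF _ _ hw))
            rw [mem_cn] at hc
            exact ⟨c, hcu, fun d hd hdv => absurd hdv (h0 d hd), x, hc.1.symm⟩
        obtain ⟨c, hcu, hcadj, hciso⟩ := hc
        have hD : ∀ a, Done (n + 1) a → a ≠ v → Done n a := by
          rintro a (h | h | h) hne
          · exact Or.inl h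
          · exact Or.inr (Or.inl h)
          · refine Or.inr (Or.inr ?_)
            have : a.1 ≠ n := fun h => hne (Fin.ext h)
            omega
        have hfu : ∀ a : Fin k, Done n a → f a ≠ c := by
          intro a ha h
          apply hcu
          rw [hused, mem_image]
          exact ⟨a, by simpa using ha, h⟩
        refine ⟨Function.update f v c, ?_, ?_, ?_, ?_⟩
        · intro w hw
          rw [Function.update_of_ne, hfB w hw]
          rintro rfl
          exact hvB hw
        · intro a b ha hb hab
          by_cases e1 : a = v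
          · by_cases e2 : b = v
            · rw [e1, e2]
            · exfalso
              rw [e1, Function.update_self, Function.update_of_ne e2] at hab
              exact hfu b (hD b hb e2) hab.symm
          · by_cases e2 : b = v
            · exfalso
              rw [e2, Function.update_self, Function.update_of_ne e1] at hab
              exact hfu a (hD a ha e1) hab
            · rw [Function.update_of_ne e1, Function.update_of_ne e2] at hab
              exact hinj a b (hD a ha e1) (hD b hb e2) hab
        · intro a b ha hb hab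
          by_cases e1 : a = v
          · have e2 : b ≠ v := fun h => hab.ne (e1.trans h.symm)
            rw [e1, Function.update_self, Function.update_of_ne e2]
            exact (hcadj b (hD b hb e2) (e1 ▸ hab.symm)).symm
          · by_cases e2 : b = v
            · rw [e2, Function.update_self, Function.update_of_ne e1]
              exact hcadj a (hD a ha e1) (e2 ▸ hab)
            · rw [Function.update_of_ne e1, Function.update_of_ne e2]
              exact hadj a b (hD a ha e1) (hD b hb e2) hab
        · intro a ha
          by_cases e1 : a = v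
          · rw [e1, Function.update_self]
            exact hciso
          · rw [Function.update_of_ne e1]
            exact hiso a (hD a ha e1)
  obtain ⟨f, _, e2, e3, _⟩ := main k le_rfl
  have hD : ∀ a, Done k a := fun a => Or.inr (Or.inr a.2)
  exact ⟨f, fun a b h => e2 a b (hD a) (hD b) h, fun a b h => e3 a b (hD a) (hD b) h⟩

/-- Graphs in the class have large independence number ... -/
theorem constr_indep {k : ℕ} (G' : SimpleGraph (Fin k)) (x0 : Fin k) (B : Finset (Fin k))
    (comp : Fin k → ℕ) (hG : Constr G' x0 B comp) (n : ℕ) (F : SimpleGraph (Fin n)) :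
    G'.IsContained F ∨ ∃ I : Finset (Fin n), F.IsIndepSet I ∧
      F.edgeSet.ncard ≤ (1000 * k ^ 2 + 3 * k + 1) * I.card * n := by
  by_cases hF : G'.IsContained F
  · exact Or.inl hF
  right
  have hk : 1 ≤ k := x0.pos
  have hne : (univ.filter (fun I : Finset (Fin n) => Ind F I)).Nonempty :=
    ⟨∅, mem_filter.2 ⟨mem_univ _, fun a ha => by simp at ha⟩⟩
  obtain ⟨I, hI, hmax⟩ := (univ.filter (fun I : Finset (Fin n) => Ind F I)).exists_max_image
    (fun I => I.card) hne
  rw [mem_filter] at hI
  refine ⟨I, ?_, ?_⟩
  · intro a ha b hb _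
    exact hI.2 a (by exact_mod_cast ha) b (by exact_mod_cast hb)
  set A := I.card with hAdef
  have hA : ∀ J : Finset (Fin n), Ind F J → J.card ≤ A := fun J hJ =>
    hmax J (mem_filter.2 ⟨mem_univ _, hJ⟩)
  by_contra hcon
  push Not at hcon
  have hedge : (Pr F).card = 2 * F.edgeSet.ncard := by
    rw [Pr_eq]
    have h1 := F.sum_degrees_eq_twice_card_edges
    have h2 : F.edgeSet.ncard = F.edgeFinset.card := by
      rw [← SimpleGraph.coe_edgeFinset, Set.ncard_coe_finset]
    rw [h2, ← h1]
    apply sum_congr rfl
    intro x _
    rw [← SimpleGraph.card_neighborFinset_eq_degree]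
    congr 1
    ext w
    simp [mem_nb]
  obtain ⟨F', hle, hc1, hc2, hc3⟩ := core k _ F le_rfl
  have hfew := deleted_few k F F' hle hc3 A hA
  rw [Fintype.card_fin] at hfew
  have hbig : (1000 * k ^ 2 + 3 * k + 1) * A * n < (Pr F).card := by omega
  have hE : 1000 * k ^ 2 * A * n < (Pr F').card := by
    have : (1000 * k ^ 2 + 3 * k + 1) * A * n = 1000 * k ^ 2 * A * n + (3 * k + 1) * A * n := by
      ring
    omega
  have hn : 1 ≤ n := by
    by_contra h0
    have : n = 0 := by omega
    subst this
    have : (Pr F').card = 0 := by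
      rw [card_eq_zero, eq_empty_iff_forall_notMem]
      rintro ⟨a, _⟩ _
      exact a.elim0
    omega
  have hA1 : 1 ≤ A := by
    have := hA {⟨0, hn⟩} (by
      intro a ha b hb
      rw [mem_singleton] at ha hb
      rw [ha, hb]
      exact F.irrefl)
    simpa using this
  obtain ⟨x, hx1, hx2, hx3⟩ := pick k hk F F' hle A hA hc2 (by rw [Fintype.card_fin]; exact hfew)
    (by rw [Fintype.card_fin]; exact hn) (by rw [Fintype.card_fin]; exact hE.le) (by omega)
  rw [Fintype.card_fin] at hx1
  have hu : 1000 * k ^ 2 * A ≤ 4 * (nb F' univ x).card := by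
    have h1 : (1000 * k ^ 2 * A) * n ≤ (4 * (nb F' univ x).card) * n := by
      calc (1000 * k ^ 2 * A) * n ≤ (Pr F').card := hE.le
        _ ≤ 4 * n * (nb F' univ x).card := hx1
        _ = _ := by ring
    exact Nat.le_of_mul_le_mul_right h1 hn
  have hxn : ∃ w, F'.Adj x w := by
    have hk2 : 1 ≤ k ^ 2 := Nat.one_le_pow _ _ hk
    have : 0 < 1000 * k ^ 2 * A := by positivity
    have h2 : 0 < (nb F' univ x).card := by omega
    obtain ⟨w, hw⟩ := card_pos.1 h2
    exact ⟨w, (mem_nb.1 hw).2⟩
  obtain ⟨f0, h1, h2, h3, h4⟩ := build_forest k hk F F' A hA x hu hx2 hx3 hA1 G' B comp hG.2.1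
    hG.2.2.1
  obtain ⟨f, hf, ha⟩ := extend_all k F' hc1 x hxn G' x0 B comp hG f0 h1 h2 h3 h4
  exact hF ⟨⟨⟨f, fun {a b} hab => hle (ha a b hab)⟩, hf⟩⟩

end Pool.Agent.H35.TW2
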