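import Pool.Agent.H35.TW2.Tri

set_option autoImplicit false

namespace Pool.Agent.H35.TW2

open Finset Classical

variable {V : Type*} [Fintype V]

/-- In `G'` the earlier neighbours of every vertex form a clique with at most two vertices. -/
def Elim {k : ℕ} (G' : SimpleGraph (Fin k)) : Prop :=
  (∀ v a b, a < v → b < v → G'.Adj a v → G'.Adj b v → a ≠ b → G'.Adj a b) ∧
  (∀ v a b c, a < v → b < v → c < v → G'.Adj a v → G'.Adj b v → G'.Adj c v →
    a = b ∨ a = c ∨ b = c)

/-- Greedy embedding of a 2-tree. -/
theorem greedy {k : ℕ} (G' : SimpleGraph (Fin k)) (hG' : Elim G') (F : SimpleGraph V)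
    (he : ∃ a b, F.Adj a b) (hF : ∀ a b, F.Adj a b → k ≤ (cn F a b).card) :
    ∃ f : Fin k → V, Function.Injective f ∧ ∀ a b, G'.Adj a b → F.Adj (f a) (f b) := by
  have main : ∀ n : ℕ, n ≤ k → ∃ f : Fin k → V,
      (∀ a b : Fin k, a.1 < n → b.1 < n → f a = f b → a = b) ∧
      (∀ a b : Fin k, a.1 < n → b.1 < n → G'.Adj a b → F.Adj (f a) (f b)) ∧
      (∀ a : Fin k, a.1 < n → ∃ w, F.Adj (f a) w) := by
    intro n
    induction n with
    | zero =>
      intro _
      obtain ⟨a, _, _⟩ := he
      exact ⟨fun _ => a, fun _ _ h => absurd h (by omega), fun _ _ h => absurd h (by omega),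
        fun _ h => absurd h (by omega)⟩
    | succ n ih =>
      intro hn
      obtain ⟨f, hinj, hadj, hiso⟩ := ih (by omega)
      set v : Fin k := ⟨n, by omega⟩ with hv
      set used := (univ.filter (fun a : Fin k => a < v)).image f with hused
      have hus : used.card < k := by
        calc used.card ≤ (univ.filter (fun a : Fin k => a < v)).card := card_image_le
          _ < (univ : Finset (Fin k)).card := by
            apply card_lt_card
            rw [Finset.ssubset_univ_iff]
            intro h
            have := h.symm ▸ mem_univ v
            simp at this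
          _ = k := by simp
      -- find the image of `v`
      have hc : ∃ c : V, c ∉ used ∧ (∀ a : Fin k, a < v → G'.Adj a v → F.Adj (f a) c) ∧
          ∃ w, F.Adj c w := by
        by_cases h0 : ∃ a, a < v ∧ G'.Adj a v
        · obtain ⟨a, hav, haa⟩ := h0
          by_cases h1 : ∃ b, b < v ∧ G'.Adj b v ∧ b ≠ a
          · obtain ⟨b, hbv, hbb, hba⟩ := h1
            have hab : F.Adj (f a) (f b) :=
              hadj a b hav hbv (hG'.1 v a b hav hbv haa hbb hba.symm)
            obtain ⟨c, hc, hcu⟩ := exists_mem_notMem_of_card_lt_card
              (lt_of_lt_of_le hus (hF _ _ hab))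
            rw [mem_cn] at hc
            refine ⟨c, hcu, ?_, f a, hc.1.symm⟩
            intro d hd hdv
            rcases hG'.2 v a b d hav hbv hd haa hbb hdv with h | h | h
            · exact absurd h.symm hba
            · exact h ▸ hc.1
            · exact h ▸ hc.2
          · push Not at h1
            obtain ⟨w, hw⟩ := hiso a hav
            obtain ⟨c, hc, hcu⟩ := exists_mem_notMem_of_card_lt_card
              (lt_of_lt_of_le hus (hF _ _ hw))
            rw [mem_cn] at hc
            refine ⟨c, hcu, ?_, f a, hc.1.symm⟩
            intro d hd hdv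
            rw [h1 d hd hdv]
            exact hc.1
        · push Not at h0
          obtain ⟨a, b, hab⟩ := he
          obtain ⟨c, hc, hcu⟩ := exists_mem_notMem_of_card_lt_card
            (lt_of_lt_of_le hus (hF _ _ hab))
          rw [mem_cn] at hc
          exact ⟨c, hcu, fun d hd hdv => absurd hdv (h0 d hd), a, hc.1.symm⟩
      obtain ⟨c, hcu, hcadj, hciso⟩ := hc
      have hlt : ∀ a : Fin k, a.1 < n + 1 → a ≠ v → a < v := by
        intro a ha hne
        rw [Fin.lt_def]
        have : a.1 ≠ n := fun h => hne (Fin.ext h)
        show a.1 < n
        omega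
      have hfu : ∀ a : Fin k, a < v → f a ≠ c := by
        intro a ha h
        apply hcu
        rw [hused, mem_image]
        exact ⟨a, by simpa using ha, h⟩
      refine ⟨Function.update f v c, ?_, ?_, ?_⟩
      · intro a b ha hb hab
        by_cases h1 : a = v
        · by_cases h2 : b = v
          · rw [h1, h2]
          · exfalso
            rw [h1, Function.update_self, Function.update_of_ne h2] at hab
            exact hfu b (hlt b hb h2) hab.symm
        · by_cases h2 : b = v
          · exfalso
            rw [h2, Function.update_self, Function.update_of_ne h1] at hab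
            exact hfu a (hlt a ha h1) hab
          · rw [Function.update_of_ne h1, Function.update_of_ne h2] at hab
            exact hinj a b (hlt a ha h1) (hlt b hb h2) hab
      · intro a b ha hb hab
        by_cases h1 : a = v
        · have h2 : b ≠ v := fun h => hab.ne (h1.trans h.symm)
          rw [h1, Function.update_self, Function.update_of_ne h2]
          exact (hcadj b (hlt b hb h2) (h1 ▸ hab.symm)).symm
        · by_cases h2 : b = v
          · rw [h2, Function.update_self, Function.update_of_ne h1]
            exact hcadj a (hlt a ha h1) (h2 ▸ hab)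
          · rw [Function.update_of_ne h1, Function.update_of_ne h2]
            exact hadj a b (hlt a ha h1) (hlt b hb h2) hab
      · intro a ha
        by_cases h1 : a = v
        · rw [h1, Function.update_self]
          exact hciso
        · rw [Function.update_of_ne h1]
          exact hiso a (hlt a ha h1)
  obtain ⟨f, h1, h2, _⟩ := main k le_rfl
  exact ⟨f, fun a b h => h1 a b a.2 b.2 h, fun a b h => h2 a b a.2 b.2 h⟩

end Pool.Agent.H35.TW2
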