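import Pool.Agent.H35.TW2.Gen
import Pool.Agent.H89.RSL.Tau

set_option autoImplicit false

namespace Pool.Agent.H35.TW2

open Finset Pool.Agent.H89.RSL

/-- every graph that does not contain `G[S]` has independence number at least a constant times its
average degree, for all induced subgraphs -/
def Good {k : ℕ} (G : SimpleGraph (Fin k)) (S : Finset (Fin k)) (c : ℕ) : Prop :=
  ∀ (N : ℕ) (Γ : SimpleGraph (Fin N)) (V : Finset (Fin N)), ¬ Cpy G Γ S V →
    ∃ I ⊆ V, Ind Γ I ∧ EE Γ V ≤ c * I.card * V.card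

lemma Cpy.mono_set {κ β : Type*} {G : SimpleGraph κ} {Γ : SimpleGraph β} {A : Finset κ}
    {V V' : Finset β} (h : Cpy G Γ A V') (hV : V' ⊆ V) : Cpy G Γ A V := by
  obtain ⟨f, h1, h2, h3⟩ := h
  exact ⟨f, fun a ha => hV (h1 a ha), h2, h3⟩

theorem base (k c : ℕ) (ε : ℝ) (hε : 0 < ε) :
    ∃ B : ℝ, 1 ≤ B ∧ ∀ (G : SimpleGraph (Fin k)) (A T : Finset (Fin k)), T ⊆ A → T.card ≤ 0 →
      Good G (A \ T) c →
      ∀ (N : ℕ) (Γ : SimpleGraph (Fin N)) (V : Finset (Fin N)), ¬ Cpy G Γ A V →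
      ∀ (p m : ℕ) (H : SimpleGraph (Fin p)) (W : Finset (Fin p)), 1 ≤ m → H.edgeSet.ncard ≤ m →
        W.card ≤ 2 * m → B * (m : ℝ) ^ (3 / 2 - (1 / 2 : ℝ) ^ (0 + 1) + ε) ≤ V.card →
          Emb H Γ W V := by
  classical
  refine ⟨256 * (c + 1), by
    have : (0 : ℝ) ≤ c := by positivity
    linarith, ?_⟩
  intro G A T _ hT hgood N Γ V hG p m H W hm1 hm hW hV
  have hm1' : (1 : ℝ) ≤ m := by exact_mod_cast hm1
  have hV' : 256 * (c + 1) * m ≤ V.card := by
    have h1 : (m : ℝ) ≤ (m : ℝ) ^ (3 / 2 - (1 / 2 : ℝ) ^ (0 + 1) + ε) := by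
      conv_lhs => rw [← Real.rpow_one (m : ℝ)]
      apply Real.rpow_le_rpow_of_exponent_le hm1'
      norm_num
      linarith
    have h2 : (256 * (c + 1) * m : ℝ) ≤ V.card :=
      (mul_le_mul_of_nonneg_left h1 (by positivity)).trans hV
    exact_mod_cast h2
  have hTe : T = ∅ := by
    rw [← Finset.card_eq_zero]; omega
  subst hTe
  rw [Finset.sdiff_empty] at hgood
  have hVpos : 0 < V.card := by
    have : 0 < 256 * (c + 1) * m := by positivity
    omega
  rcases W.eq_empty_or_nonempty with rfl | hWne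
  · have : Nonempty (Fin N) := ⟨(card_pos.1 hVpos).choose⟩
    exact emb_empty
  refine embed_gen (c + 1) (by omega) Γ V ?_ H W hWne (fun x => (nb H univ x).card + 1) ?_ ?_ ?_
  · intro U hU
    obtain ⟨I, hI1, hI2, hI3⟩ := hgood N Γ U (fun h => hG (Cpy.mono_set h hU))
    refine ⟨I, hI1, hI2, hI3.trans ?_⟩
    gcongr
    omega
  · intro x _
    have := card_le_card (nb_mono H (subset_univ W) x)
    show (nb H W x).card ≤ (nb H univ x).card + 1
    omega
  · intro x _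
    show 1 ≤ (nb H univ x).card + 1
    omega
  · have h1 : ∑ x ∈ W, ((nb H univ x).card + 1) ≤ 4 * m := by
      rw [sum_add_distrib]
      have h2 := sum_dg_le H m hm W
      simp only [dg_eq] at h2
      have h3 : ∑ _x ∈ W, 1 = W.card := by simp
      omega
    calc 64 * (c + 1) * ∑ x ∈ W, ((nb H univ x).card + 1) ≤ 64 * (c + 1) * (4 * m) :=
          Nat.mul_le_mul_left _ h1
      _ = 256 * (c + 1) * m := by ring
      _ ≤ V.card := hV'

/-- the induction step -/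
theorem step (C : ℝ) (hC : 1 ≤ C) (k c t : ℕ) (ε : ℝ) (hε : 0 < ε)
    (ih : ∃ B : ℝ, 1 ≤ B ∧ ∀ (G : SimpleGraph (Fin k)) (A T : Finset (Fin k)), T ⊆ A →
      T.card ≤ t → Good G (A \ T) c →
      ∀ (N : ℕ) (Γ : SimpleGraph (Fin N)) (V : Finset (Fin N)), Hered Γ V C 2 → ¬ Cpy G Γ A V →
      ∀ (p m : ℕ) (H : SimpleGraph (Fin p)) (W : Finset (Fin p)), 1 ≤ m → H.edgeSet.ncard ≤ m →
        W.card ≤ 2 * m → B * (m : ℝ) ^ (3 / 2 - (1 / 2 : ℝ) ^ (t + 1) + ε) ≤ V.card →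
          Emb H Γ W V) :
    ∃ B : ℝ, 1 ≤ B ∧ ∀ (G : SimpleGraph (Fin k)) (A T : Finset (Fin k)), T ⊆ A →
      T.card ≤ t + 1 → Good G (A \ T) c →
      ∀ (N : ℕ) (Γ : SimpleGraph (Fin N)) (V : Finset (Fin N)), Hered Γ V C 2 → ¬ Cpy G Γ A V →
      ∀ (p m : ℕ) (H : SimpleGraph (Fin p)) (W : Finset (Fin p)), 1 ≤ m → H.edgeSet.ncard ≤ m →
        W.card ≤ 2 * m → B * (m : ℝ) ^ (3 / 2 - (1 / 2 : ℝ) ^ (t + 1 + 1) + ε) ≤ V.card →
          Emb H Γ W V := by
  classical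
  obtain ⟨B', hB', ih⟩ := ih
  set η : ℝ := min 1 ε with hηdef
  have hη : 0 < η := lt_min one_pos hε
  have hη1 : η ≤ 1 := min_le_left _ _
  have hηε : η ≤ ε := min_le_right _ _
  obtain ⟨B₁, hB₁, hsp⟩ := sparse_emb C η hC hη hη1
  have hBB : 1 ≤ B' * B₁ := by nlinarith
  have hB'B : B' ≤ 8 * (B' * B₁) := by nlinarith
  have hB₁B : B₁ ≤ 8 * (B' * B₁) := by nlinarith
  refine ⟨8 * (B' * B₁), by linarith, ?_⟩
  intro G A T hTA hT hF N Γ V hH hG p m H W hm1 hm hW hV
  have hm1' : (1 : ℝ) ≤ m := by exact_mod_cast hm1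
  have hm0 : (0 : ℝ) < m := by linarith
  set e' : ℝ := 3 / 2 - (1 / 2 : ℝ) ^ (t + 1) + ε with he'
  set e : ℝ := 3 / 2 - (1 / 2 : ℝ) ^ (t + 1 + 1) + ε with he
  have hq : (1 / 2 : ℝ) ^ (t + 1 + 1) = (1 / 2 : ℝ) ^ (t + 1) / 2 := by
    rw [pow_succ (1 / 2 : ℝ) (t + 1)]; ring
  have hqpos : (0 : ℝ) < (1 / 2 : ℝ) ^ (t + 1) := by positivity
  have hqle : (1 / 2 : ℝ) ^ (t + 1) ≤ 1 / 2 := by
    calc (1 / 2 : ℝ) ^ (t + 1) ≤ (1 / 2 : ℝ) ^ 1 :=
          pow_le_pow_of_le_one (by norm_num) (by norm_num) (by omega)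
      _ = 1 / 2 := by norm_num
  have hee' : e' ≤ e := by rw [he, he', hq]; linarith
  have he1 : 1 + η / 2 ≤ e := by rw [he, hq]; linarith
  have h2e : (1 + η) / 2 + 1 + e' ≤ 2 * e := by rw [he, he', hq]; linarith
  have hmono : ∀ {y z : ℝ}, y ≤ z → (m : ℝ) ^ y ≤ (m : ℝ) ^ z := fun h =>
    Real.rpow_le_rpow_of_exponent_le hm1' h
  have hV4 : 4 * m ≤ V.card := by
    have h1 : (m : ℝ) ≤ (m : ℝ) ^ e := by
      conv_lhs => rw [← Real.rpow_one (m : ℝ)]
      exact hmono (by linarith)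
    have h2 : (4 * m : ℝ) ≤ V.card := by
      refine le_trans ?_ hV
      have h3 : 0 ≤ (m : ℝ) ^ e := by positivity
      nlinarith
    exact_mod_cast h2
  rcases Nat.lt_or_ge t T.card with hlt | hge
  · obtain ⟨v, hv⟩ : T.Nonempty := by
      rw [← Finset.card_pos]; omega
    rcases high_step Γ V H W m hm1 hm hW hV4 with h | ⟨x, hx, Nb, hNb, hadj, hpos, W', hW', hc, hext⟩
    · exact h
    · apply hext
      have hWc : W'.card ≤ 2 * m := (Finset.card_le_card hW').trans hW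
      by_cases hbig : B' * (m : ℝ) ^ e' ≤ Nb.card
      · have hG' := nbr_step G Γ A V Nb x hx hNb hadj v hG
        refine (ih G (A.erase v) (T.erase v) (Finset.erase_subset_erase _ hTA) ?_ ?_ N Γ Nb
          (hH.mono_set hNb) hG' p m H W' hm1 hm hWc hbig).mono hNb
        · rw [Finset.card_erase_of_mem hv]; omega
        · have : A.erase v \ T.erase v = A \ T := by
            ext y
            simp only [Finset.mem_sdiff, Finset.mem_erase]
            constructor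
            · rintro ⟨⟨h1, h2⟩, h3⟩
              exact ⟨h2, fun h => h3 ⟨h1, h⟩⟩
            · rintro ⟨h1, h2⟩
              exact ⟨⟨fun h => h2 (h ▸ hv), h1⟩, fun h => h2 h.2⟩
          rw [this]
          exact hF
      · push Not at hbig
        have hVpos : (0 : ℝ) < V.card := by
          have : 0 < V.card := by omega
          exact_mod_cast this
        refine hsp N Γ V hH p m H W' hm1 hm hWc ?_ ?_
        · refine le_trans ?_ hV
          exact mul_le_mul hB₁B (hmono he1) (by positivity) (by linarith)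
        · have h1 : (V.card : ℝ) * W'.card ≤ 8 * m * (B' * (m : ℝ) ^ e') := by
            have h2 : (V.card : ℝ) * W'.card ≤ 8 * m * Nb.card := by exact_mod_cast hc
            refine h2.trans ?_
            apply mul_le_mul_of_nonneg_left hbig.le (by positivity)
          have h2 : B₁ * (m : ℝ) ^ ((1 + η) / 2) * W'.card * V.card ≤ V.card * V.card := by
            calc B₁ * (m : ℝ) ^ ((1 + η) / 2) * W'.card * V.card
                = B₁ * (m : ℝ) ^ ((1 + η) / 2) * (V.card * W'.card) := by ring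
              _ ≤ B₁ * (m : ℝ) ^ ((1 + η) / 2) * (8 * m * (B' * (m : ℝ) ^ e')) := by
                  apply mul_le_mul_of_nonneg_left h1 (by positivity)
              _ = 8 * (B' * B₁) * ((m : ℝ) ^ ((1 + η) / 2) * (m : ℝ) ^ (1 : ℝ) * (m : ℝ) ^ e') := by
                  rw [Real.rpow_one]; ring
              _ = 8 * (B' * B₁) * (m : ℝ) ^ ((1 + η) / 2 + 1 + e') := by
                  rw [Real.rpow_add hm0 ((1 + η) / 2 + 1) e', Real.rpow_add hm0 ((1 + η) / 2) 1]
              _ ≤ (8 * (B' * B₁)) ^ 2 * (m : ℝ) ^ (2 * e) := by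
                  apply mul_le_mul _ (hmono h2e) (by positivity) (by positivity)
                  nlinarith
              _ = (8 * (B' * B₁) * (m : ℝ) ^ e) * (8 * (B' * B₁) * (m : ℝ) ^ e) := by
                  rw [two_mul, Real.rpow_add hm0]; ring
              _ ≤ V.card * V.card := mul_le_mul hV hV (by positivity) hVpos.le
          exact le_of_mul_le_mul_right h2 hVpos
  · refine ih G A T hTA hge hF N Γ V hH hG p m H W hm1 hm hW ?_
    refine le_trans ?_ hV
    exact mul_le_mul hB'B (hmono hee') (by positivity) (by linarith)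

theorem ind_t (C : ℝ) (hC : 1 ≤ C) (k c t : ℕ) (ε : ℝ) (hε : 0 < ε) :
    ∃ B : ℝ, 1 ≤ B ∧ ∀ (G : SimpleGraph (Fin k)) (A T : Finset (Fin k)), T ⊆ A →
      T.card ≤ t → Good G (A \ T) c →
      ∀ (N : ℕ) (Γ : SimpleGraph (Fin N)) (V : Finset (Fin N)), Hered Γ V C 2 → ¬ Cpy G Γ A V →
      ∀ (p m : ℕ) (H : SimpleGraph (Fin p)) (W : Finset (Fin p)), 1 ≤ m → H.edgeSet.ncard ≤ m →
        W.card ≤ 2 * m → B * (m : ℝ) ^ (3 / 2 - (1 / 2 : ℝ) ^ (t + 1) + ε) ≤ V.card →
          Emb H Γ W V := by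
  induction t with
  | zero =>
    obtain ⟨B, hB, h⟩ := base k c ε hε
    exact ⟨B, hB, fun G A T hTA hT hg N Γ V _ => h G A T hTA hT hg N Γ V⟩
  | succ t ih => exact step C hC k c t ε hε ih

end Pool.Agent.H35.TW2
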