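import Pool.Agent.H35.TW2.Avg
import Pool.Agent.H35.TW2.Emb
import Pool.Agent.H35.TW2.Crit
import Pool.Agent.H35.TW2.Tau2

set_option autoImplicit false

namespace Pool.Agent.H35.TW2

open Finset Classical Pool.Agent.H89.RSL

variable {V : Type*} [Fintype V]

lemma sum_nb_univ (H : SimpleGraph V) :
    ∑ x, (nb H univ x).card = 2 * H.edgeSet.ncard := by
  have h1 := H.sum_degrees_eq_twice_card_edges
  have h2 : H.edgeSet.ncard = H.edgeFinset.card := by
    rw [← SimpleGraph.coe_edgeFinset, Set.ncard_coe_finset]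
  rw [h2, ← h1]
  apply sum_congr rfl
  intro x _
  rw [← SimpleGraph.card_neighborFinset_eq_degree]
  congr 1
  ext w
  simp [mem_nb]

/-- from an injection to containment in the complement -/
lemma contained_compl {p : ℕ} (H : SimpleGraph (Fin p)) (F : SimpleGraph V)
    (h : ∃ f : Fin p → V, Function.Injective f ∧ ∀ x y, H.Adj x y → ¬ F.Adj (f x) (f y)) :
    H.IsContained Fᶜ := by
  obtain ⟨f, hf, ha⟩ := h
  refine ⟨⟨⟨f, ?_⟩, hf⟩⟩
  intro x y hxy
  rw [SimpleGraph.compl_adj]
  exact ⟨fun h => hxy.ne (hf h), ha x y hxy⟩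

/-- the criterion in terms of the independence number of all induced subgraphs -/
theorem size_linear_of_indep (K : ℕ) (hK : 1 ≤ K) (N : ℕ) (F : SimpleGraph (Fin N))
    (hA : ∀ W : Finset (Fin N), ∃ I ⊆ W, Ind F I ∧ EE F W ≤ K * I.card * W.card)
    (p : ℕ) (H : SimpleGraph (Fin p)) (hiso : ∀ v, ∃ w, H.Adj v w)
    (hN : 128 * K * H.edgeSet.ncard ≤ N) : H.IsContained Fᶜ := by
  apply contained_compl
  refine embed_H K N hK F (by simp) hA H ?_ ?_
  · intro x
    obtain ⟨w, hw⟩ := hiso x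
    rw [Nat.succ_le_iff, card_pos]
    exact ⟨w, mem_nb.2 ⟨mem_univ _, hw⟩⟩
  · rw [sum_nb_univ]
    calc 64 * K * (2 * H.edgeSet.ncard) = 128 * K * H.edgeSet.ncard := by ring
      _ ≤ N := hN

/-- transfer of a hereditary property of graphs on `Fin n` to subsets of vertices -/
theorem transfer {α : Type*} (G : SimpleGraph α) (c : ℕ)
    (hG : ∀ (n : ℕ) (F : SimpleGraph (Fin n)), G.IsContained F ∨
      ∃ I : Finset (Fin n), F.IsIndepSet I ∧ F.edgeSet.ncard ≤ c * I.card * n)
    (N : ℕ) (F : SimpleGraph (Fin N)) (W : Finset (Fin N)) :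
    (∃ f : α → Fin N, Function.Injective f ∧ (∀ a, f a ∈ W) ∧
      ∀ a b, G.Adj a b → F.Adj (f a) (f b)) ∨
    ∃ I ⊆ W, Ind F I ∧ EE F W ≤ (2 * c) * I.card * W.card := by
  set n := W.card with hn
  let e : Fin n ≃ {x // x ∈ W} := (W.equivFin).symm
  set F' : SimpleGraph (Fin n) := F.comap (fun i => (e i).1) with hF'
  have hinj : Function.Injective (fun i => (e i).1) :=
    Subtype.val_injective.comp e.injective
  rcases hG n F' with ⟨⟨h⟩⟩ | ⟨I, hI, hE⟩
  · left
    refine ⟨fun a => (e (h a)).1, fun a b hab => h.injective (hinj hab), fun a => (e _).2, ?_⟩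
    intro a b hab
    exact h.toHom.map_adj hab
  · right
    refine ⟨I.image (fun i => (e i).1), ?_, ?_, ?_⟩
    · intro w hw
      rw [mem_image] at hw
      obtain ⟨i, _, rfl⟩ := hw
      exact (e i).2
    · intro a ha b hb hab
      rw [mem_image] at ha hb
      obtain ⟨i, hi, rfl⟩ := ha
      obtain ⟨j, hj, rfl⟩ := hb
      have hne : i ≠ j := fun h => hab.ne (by rw [h])
      exact hI (by exact_mod_cast hi) (by exact_mod_cast hj) hne hab
    · rw [card_image_of_injective _ hinj]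
      have h1 : EE F W = 2 * F'.edgeSet.ncard := by
        rw [← sum_nb_univ]
        unfold EE
        rw [← sum_coe_sort W (fun v => (nb F W v).card)]
        rw [← Equiv.sum_comp e (fun v : {x // x ∈ W} => (nb F W v.1).card)]
        apply sum_congr rfl
        intro i _
        symm
        apply card_bij (fun j _ => (e j).1)
        · intro j hj
          rw [mem_nb] at hj ⊢
          exact ⟨(e j).2, hj.2⟩
        · intro a _ b _ hab
          exact hinj hab
        · intro w hw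
          rw [mem_nb] at hw
          refine ⟨e.symm ⟨w, hw.1⟩, ?_, by simp⟩
          rw [mem_nb]
          refine ⟨mem_univ _, ?_⟩
          show F.Adj (e i).1 (e (e.symm ⟨w, hw.1⟩)).1
          simpa using hw.2
      rw [h1]
      calc 2 * F'.edgeSet.ncard ≤ 2 * (c * I.card * n) := Nat.mul_le_mul_left _ hE
        _ = _ := by ring

/-- (1) -/
theorem part_one {k : ℕ} (G : SimpleGraph (Fin k)) (c : ℕ)
    (hG : ∀ (n : ℕ) (F : SimpleGraph (Fin n)), G.IsContained F ∨
      ∃ I : Finset (Fin n), F.IsIndepSet I ∧ F.edgeSet.ncard ≤ c * I.card * n) :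
    ∀ (p : ℕ) (H : SimpleGraph (Fin p)), (∀ v, ∃ w, H.Adj v w) →
      ∀ N : ℕ, (128 * (2 * c + 1)) * H.edgeSet.ncard ≤ N → ∀ F : SimpleGraph (Fin N),
        G.IsContained F ∨ H.IsContained Fᶜ := by
  intro p H hiso N hN F
  by_cases hF : G.IsContained F
  · exact Or.inl hF
  right
  refine size_linear_of_indep (2 * c + 1) (by omega) N F ?_ p H hiso hN
  intro W
  rcases transfer G c hG N F W with ⟨f, h1, _, h3⟩ | ⟨I, h1, h2, h3⟩
  · exact absurd ⟨⟨⟨f, fun {a b} hab => h3 a b hab⟩, h1⟩⟩ hF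
  · refine ⟨I, h1, h2, h3.trans ?_⟩
    gcongr
    omega

/-- (2) -/
theorem part_two {k : ℕ} (G' : SimpleGraph (Fin k)) (hG' : Elim G') (n : ℕ)
    (F : SimpleGraph (Fin n)) : G'.IsContained F ∨
      ∃ I : Finset (Fin n), F.IsIndepSet I ∧ F.edgeSet.ncard ≤ (3 * k + 1) * I.card * n := by
  by_cases hF : G'.IsContained F
  · exact Or.inl hF
  right
  obtain ⟨I, _, h2, h3⟩ := large_indep k F (by
    intro F' hF' he
    by_contra hcon
    push Not at hcon
    obtain ⟨f, hf, ha⟩ := greedy G' hG' F' he hcon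
    exact hF ⟨⟨⟨f, fun {a b} hab => hF' (ha a b hab)⟩, hf⟩⟩) univ
  refine ⟨I, ?_, ?_⟩
  · intro a ha b hb _
    exact h2 a (by exact_mod_cast ha) b (by exact_mod_cast hb)
  · have h4 : EE F univ = 2 * F.edgeSet.ncard := sum_nb_univ F
    rw [card_univ, Fintype.card_fin] at h3
    omega

/-- (3) -/
theorem part_three {k : ℕ} (G : SimpleGraph (Fin k)) (T : Finset (Fin k)) (c : ℕ)
    (hG : ∀ (n : ℕ) (F : SimpleGraph (Fin n)), (G.induce ((T : Set (Fin k))ᶜ)).IsContained F ∨
      ∃ I : Finset (Fin n), F.IsIndepSet I ∧ F.edgeSet.ncard ≤ c * I.card * n)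
    (C₀ : ℕ) (hC₀ : ∀ n N : ℕ, C₀ * n ^ 2 ≤ N → ∀ F : SimpleGraph (Fin N),
      G.IsContained F ∨ (⊤ : SimpleGraph (Fin n)).IsContained Fᶜ) (ε : ℝ) (hε : 0 < ε) :
    ∃ C : ℝ, ∀ (p : ℕ) (H : SimpleGraph (Fin p)), (∀ v, ∃ w, H.Adj v w) →
      ∀ N : ℕ, C * (H.edgeSet.ncard : ℝ) ^ (3 / 2 - (1 / 2 : ℝ) ^ (T.card + 1) + ε) ≤ N →
        ∀ F : SimpleGraph (Fin N), G.IsContained F ∨ H.IsContained Fᶜ := by
  set c0 := max C₀ 1 with hc0
  have hc01 : 1 ≤ c0 := le_max_right _ _
  have hR : ∀ n N : ℕ, (c0 : ℝ) * (n : ℝ) ^ (2 : ℝ) ≤ N → ∀ F : SimpleGraph (Fin N),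
      G.IsContained F ∨ (⊤ : SimpleGraph (Fin n)).IsContained Fᶜ := by
    intro n N hN F
    apply hC₀ n N _ F
    have h1 : ((c0 * n ^ 2 : ℕ) : ℝ) ≤ N := by
      push_cast
      convert hN using 2
      norm_cast
    have h2 : c0 * n ^ 2 ≤ N := by exact_mod_cast h1
    exact (Nat.mul_le_mul_right _ (le_max_left _ _)).trans h2
  have hgood : Good G (univ \ T) (2 * c) := by
    intro N Γ V hcpy
    rcases Nat.eq_zero_or_pos N with hN0 | hN0
    · subst hN0
      have hV : V = ∅ := eq_empty_of_forall_notMem (fun x => x.elim0)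
      subst hV
      exact ⟨∅, Subset.refl _, fun a ha => by simp at ha, by simp [EE]⟩
    rcases transfer _ c hG N Γ V with ⟨f, h1, h2, h3⟩ | h
    · exfalso
      apply hcpy
      by_cases hne : ∃ a : Fin k, a ∉ T
      · obtain ⟨a0, ha0⟩ := hne
        set g : Fin k → Fin N := fun a => if h : a ∈ ((T : Set (Fin k))ᶜ) then f ⟨a, h⟩ else
          f ⟨a0, by simpa using ha0⟩ with hg
        have hgf : ∀ a (h : a ∈ ((T : Set (Fin k))ᶜ)), g a = f ⟨a, h⟩ := by
          intro a h
          simp only [hg]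
          rw [dif_pos h]
        have hmem : ∀ a ∈ (univ \ T : Finset (Fin k)), a ∈ ((T : Set (Fin k))ᶜ) := by
          intro a ha
          simpa using ha
        refine ⟨g, ?_, ?_, ?_⟩
        · intro a ha
          rw [hgf a (hmem a ha)]
          exact h2 _
        · intro a ha b hb hab
          rw [hgf a (hmem a ha), hgf b (hmem b hb)] at hab
          exact congrArg Subtype.val (h1 hab)
        · intro a ha b hb hab
          rw [hgf a (hmem a ha), hgf b (hmem b hb)]
          exact h3 _ _ hab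
      · push Not at hne
        have hu : (univ \ T : Finset (Fin k)) = ∅ := by
          rw [sdiff_eq_empty_iff_subset]
          intro a _
          exact hne a
        rw [hu]
        exact ⟨fun _ => ⟨0, hN0⟩, by simp, by simp, by simp⟩
    · exact h
  obtain ⟨B, hB1, hB⟩ := ind_t (c0 : ℝ) (by exact_mod_cast hc01) k (2 * c) T.card ε hε
  refine ⟨B, ?_⟩
  intro p H hiso N hN F
  by_cases hF : G.IsContained F
  · exact Or.inl hF
  right
  apply contained_of_emb
  rcases Nat.eq_zero_or_pos p with rfl | hp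
  · exact ⟨Fin.elim0, fun a => a.elim0, fun a => a.elim0, fun a => a.elim0⟩
  have hm : 1 ≤ H.edgeSet.ncard := by
    rw [Nat.one_le_iff_ne_zero, ← Nat.pos_iff_ne_zero, Set.ncard_pos]
    obtain ⟨w, hw⟩ := hiso ⟨0, hp⟩
    exact ⟨s(⟨0, hp⟩, w), hw⟩
  refine hB G Finset.univ T (Finset.subset_univ _) le_rfl hgood N F Finset.univ
    (hered_of_ramsey G (c0 : ℝ) 2 hR F hF)
    (fun hc => hF (contained_of_cpy G F hc)) p _ H Finset.univ hm le_rfl ?_ ?_
  · have := card_high H H.edgeSet.ncard 1 le_rfl Finset.univ (by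
      intro v _
      obtain ⟨w, hw⟩ := hiso v
      rw [dg_eq, Nat.one_le_iff_ne_zero, ← Nat.pos_iff_ne_zero, Finset.card_pos]
      exact ⟨w, by simpa [mem_nb] using hw⟩)
    simpa using this
  · simpa using hN

end Pool.Agent.H35.TW2
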