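import Pool.Agent.H35.TW2.Class
import Pool.Agent.H35.TW2.Fin
import Pool.Agent.H35.TW2.Ext2
import Pool.Agent.H89.RSL.Acyc

set_option autoImplicit false

namespace Pool.Agent.H35.TW2

/-- three elements of a set with at most two elements -/
lemma two_of_three {k : ℕ} {S : Set (Fin k)} (h : S.ncard ≤ 2) {a b c : Fin k} (ha : a ∈ S)
    (hb : b ∈ S) (hc : c ∈ S) : a = b ∨ a = c ∨ b = c := by
  by_contra hcon
  push Not at hcon
  obtain ⟨h1, h2, h3⟩ := hcon
  have : ({a, b, c} : Set (Fin k)).ncard ≤ S.ncard := by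
    apply Set.ncard_le_ncard
    · intro y hy
      simp only [Set.mem_insert_iff, Set.mem_singleton_iff] at hy
      rcases hy with rfl | rfl | rfl <;> assumption
    · exact Set.toFinite S
  have h4 : ({a, b, c} : Set (Fin k)).ncard = 3 := by
    rw [Set.ncard_eq_three]
    exact ⟨a, b, c, h1, h2, h3, rfl⟩
  omega

theorem tw_largeIndep {α : Type} (G : SimpleGraph α) (h : TreewidthLeTwo G) : LargeIndep G := by
  obtain ⟨k, G', hc, hG'⟩ := h
  refine ⟨3 * k + 1, fun n F => ?_⟩
  have hE : Elim G' := by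
    refine ⟨?_, ?_⟩
    · intro v a b ha hb hav hbv hab
      exact (hG' v).1 ⟨ha, hav⟩ ⟨hb, hbv⟩ hab
    · intro v a b c ha hb hc' hav hbv hcv
      exact two_of_three (hG' v).2 (a := a) (b := b) (c := c) ⟨ha, hav⟩ ⟨hb, hbv⟩ ⟨hc', hcv⟩
  rcases part_two G' hE n F with h | h
  · exact Or.inl (hc.trans h)
  · exact Or.inr h

theorem constructible_largeIndep {α : Type} (G : SimpleGraph α) (h : Constructible G) :
    LargeIndep G := by
  classical
  obtain ⟨k, G', x, B, hc, hx, hac, hG'⟩ := h
  refine ⟨1000 * k ^ 2 + 3 * k + 1, fun n F => ?_⟩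
  set B' : Finset (Fin k) := Finset.univ.filter (fun v => v ∈ B) with hB'
  have hmem : ∀ v, v ∈ B' ↔ v ∈ B := fun v => by simp [hB']
  have : Finite (G'.induce B).ConnectedComponent :=
    Finite.of_surjective (fun v => (G'.induce B).connectedComponentMk v) (by
      intro c
      induction c using SimpleGraph.ConnectedComponent.ind with
      | h v => exact ⟨v, rfl⟩)
  set E := Finite.equivFin (G'.induce B).ConnectedComponent with hE
  set comp : Fin k → ℕ := fun a => if h : a ∈ B then
    (E ((G'.induce B).connectedComponentMk ⟨a, h⟩)).1 else 0 with hcomp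
  have hcompB : ∀ a (h : a ∈ B), comp a = (E ((G'.induce B).connectedComponentMk ⟨a, h⟩)).1 := by
    intro a h
    simp only [hcomp]
    rw [dif_pos h]
  have hC : Constr G' x B' comp := by
    refine ⟨by rwa [hmem], ?_, ?_, ?_, ?_⟩
    · intro S hS hne
      refine Pool.Agent.H89.RSL.forest_cond G' (Finset.univ \ B') ?_ S (by simpa using hS) hne
      have : ((((Finset.univ \ B' : Finset (Fin k)) : Set (Fin k)))ᶜ) = B := by
        ext v
        simp [hB']
      rw [this]
      exact hac
    · intro u hu v hv huv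
      rw [hmem] at hu hv
      rw [hcompB u hu, hcompB v hv]
      congr 2
      exact SimpleGraph.ConnectedComponent.connectedComponentMk_eq_of_adj (by exact huv)
    · intro v hv hvx a b ha hb hav hbv hab
      rw [hmem] at hv
      rw [hmem] at ha hb
      rcases (hG' v hv hvx).2 (x := a) ⟨hav, ha⟩ (y := b) ⟨hbv, hb⟩ hab with h | ⟨h1, h2, h3⟩
      · exact Or.inl h
      · refine Or.inr ⟨(hmem a).2 h1, (hmem b).2 h2, ?_⟩
        intro h
        rw [hcompB a h1, hcompB b h2] at h
        exact h3 (SimpleGraph.ConnectedComponent.exact (E.injective (Fin.ext h)))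
    · intro v hv hvx a b c ha hb hc' hav hbv hcv
      rw [hmem] at hv ha hb hc'
      exact two_of_three (hG' v hv hvx).1 (a := a) (b := b) (c := c) ⟨hav, ha⟩ ⟨hbv, hb⟩
        ⟨hcv, hc'⟩
  rcases constr_indep G' x B' comp hC n F with h | h
  · exact Or.inl (hc.trans h)
  · exact Or.inr h

theorem sizeLinear_of_largeIndep {k : ℕ} (G : SimpleGraph (Fin k)) (h : LargeIndep G) :
    SizeLinear G := by
  obtain ⟨c, hG⟩ := h
  exact ⟨128 * (2 * c + 1), part_one G c hG⟩

end Pool.Agent.H35.TW2
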