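import Pool.Agent.H35.TW2.Avg

set_option autoImplicit false

namespace Pool.Agent.H35.TW2

open Finset Classical

variable {V : Type*} [Fintype V]

lemma cn_mono {F F' : SimpleGraph V} (h : F' ≤ F) (a b : V) : cn F' a b ⊆ cn F a b := by
  intro w hw
  rw [mem_cn] at *
  exact ⟨h hw.1, h hw.2⟩

/-- The core: every edge of `F'` is in at least `g` triangles of `F'`. -/
theorem core (g : ℕ) : ∀ (n : ℕ) (F : SimpleGraph V), (Pr F).card ≤ n →
    ∃ F' ≤ F, (∀ a b, F'.Adj a b → g ≤ (cn F' a b).card) ∧
      (∀ a b, F.Adj a b → ¬ F'.Adj a b → (cn F' a b).card < g) ∧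
      (Tr F).card + 3 * g * (Pr F').card ≤ (Tr F').card + 3 * g * (Pr F).card := by
  intro n
  induction n using Nat.strong_induction_on with
  | _ n ih =>
    intro F hn
    by_cases he : ∀ a b, F.Adj a b → g ≤ (cn F a b).card
    · exact ⟨F, le_rfl, he, fun a b h h' => absurd h h', le_rfl⟩
    · push Not at he
      obtain ⟨a, b, hab, hc⟩ := he
      have h1 := Pr_delete F a b hab
      have h2 := Tr_delete F a b
      obtain ⟨F', hle, hF1, hF2, hF3⟩ := ih (Pr (F.deleteEdges {s(a, b)})).card (by omega)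
        (F.deleteEdges {s(a, b)}) le_rfl
      have hle' : F' ≤ F := hle.trans (SimpleGraph.deleteEdges_le _)
      refine ⟨F', hle', hF1, ?_, ?_⟩
      · intro x y hxy hxy'
        by_cases hs : s(x, y) = s(a, b)
        · have h3 : (cn F x y).card < g := by
            rw [Sym2.eq_iff] at hs
            rcases hs with ⟨rfl, rfl⟩ | ⟨rfl, rfl⟩
            · exact hc
            · have : cn F x y = cn F y x := by
                ext w
                rw [mem_cn, mem_cn]
                tauto
              rw [this]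
              exact hc
          exact lt_of_le_of_lt (card_le_card (cn_mono hle' x y)) h3
        · apply hF2 x y _ hxy'
          rw [SimpleGraph.deleteEdges_adj]
          exact ⟨hxy, hs⟩
      · nlinarith

lemma Pr_mono {F F' : SimpleGraph V} (h : F' ≤ F) : (Pr F').card ≤ (Pr F).card := by
  apply card_le_card
  intro t ht
  rw [mem_Pr] at *
  exact h ht

lemma Tr_mono {F F' : SimpleGraph V} (h : F' ≤ F) : (Tr F').card ≤ (Tr F).card := by
  apply card_le_card
  intro t ht
  rw [mem_Tr] at *
  exact ⟨h ht.1, h ht.2.1, h ht.2.2⟩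

lemma Pr_eq (F : SimpleGraph V) : (Pr F).card = ∑ v, (nb F univ v).card := by
  have h := Pr_restr F univ
  have h2 : restr F univ = F := by
    ext x y
    simp [restr]
  rw [h2] at h
  rw [h]
  rfl

lemma nb_mono_left {F F' : SimpleGraph V} (h : F' ≤ F) (W : Finset V) (v : V) :
    nb F' W v ⊆ nb F W v := by
  intro w hw
  rw [mem_nb] at *
  exact ⟨hw.1, h hw.2⟩

/-- the deleted edges are few -/
theorem deleted_few (g : ℕ) (F F' : SimpleGraph V) (hle : F' ≤ F)
    (hT : (Tr F).card + 3 * g * (Pr F').card ≤ (Tr F').card + 3 * g * (Pr F).card)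
    (A : ℕ) (hA : ∀ I : Finset V, Ind F I → I.card ≤ A) :
    (Pr F).card ≤ (Pr F').card + (3 * g + 1) * A * Fintype.card V := by
  set Y : V → Finset V := fun v => nb F univ v \ nb F' univ v with hY
  have hYs : ∑ v, (Y v).card + (Pr F').card = (Pr F).card := by
    rw [Pr_eq, Pr_eq, ← sum_add_distrib]
    apply sum_congr rfl
    intro v _
    exact card_sdiff_add_card_eq_card (nb_mono_left hle univ v)
  set S := ∑ v, (Y v).card with hS
  -- triangles
  have hTr : ∑ v, EE F (Y v) + (Tr F').card ≤ (Tr F).card := by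
    have h1 : ∑ v, EE F (Y v) = ((univ : Finset V).biUnion (fun v => (Pr (restr F (Y v))).image
        (fun w => (v, w)))).card := by
      rw [card_biUnion]
      · apply sum_congr rfl
        intro v _
        rw [card_image_of_injective _ (fun a b h => (Prod.mk.inj h).2), Pr_restr]
      · intro a _ b _ hab
        rw [Function.onFun, Finset.disjoint_left]
        rintro ⟨x, y⟩ h1 h2
        simp only [mem_image, Prod.mk.injEq] at h1 h2
        obtain ⟨_, _, rfl, _⟩ := h1
        obtain ⟨_, _, rfl, _⟩ := h2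
        exact hab rfl
    rw [h1, ← card_union_of_disjoint]
    · apply card_le_card
      intro t ht
      rw [mem_union] at ht
      rcases ht with ht | ht
      · obtain ⟨x, y, z⟩ := t
        simp only [mem_biUnion, mem_image, mem_Pr, restr, hY, mem_sdiff, mem_nb, Prod.mk.injEq,
          Prod.exists, mem_univ, true_and] at ht
        obtain ⟨x', y', z', ⟨h1, ⟨h2, _⟩, h3, _⟩, rfl, rfl, rfl⟩ := ht
        rw [mem_Tr]
        exact ⟨h2, h1, h3⟩
      · rw [mem_Tr] at *
        exact ⟨hle ht.1, hle ht.2.1, hle ht.2.2⟩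
    · rw [Finset.disjoint_left]
      rintro ⟨x, y, z⟩ ht ht'
      simp only [mem_biUnion, mem_image, mem_Pr, restr, hY, mem_sdiff, mem_nb, Prod.mk.injEq,
        Prod.exists, mem_univ, true_and] at ht
      obtain ⟨x', y', z', ⟨_, ⟨_, h4⟩, _, _⟩, rfl, rfl, rfl⟩ := ht
      rw [mem_Tr] at ht'
      exact h4 ht'.1
  have h1 : ∑ v, (Y v).card ^ 2 ≤ A * (∑ v, EE F (Y v) + S) := by
    rw [hS, ← sum_add_distrib, mul_sum]
    apply sum_le_sum
    intro v _
    obtain ⟨I, _, hI, hc⟩ := turan F _ (Y v) rfl
    exact hc.trans (Nat.mul_le_mul_right _ (hA I hI))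
  have h2 : ∑ v, EE F (Y v) ≤ 3 * g * S := by
    have h3 : 3 * g * (Pr F).card = 3 * g * S + 3 * g * (Pr F').card := by
      rw [← hYs]; ring
    omega
  have h3 : S ^ 2 ≤ Fintype.card V * ∑ v, (Y v).card ^ 2 := by
    rw [hS, ← card_univ]
    exact sq_sum_le_card_mul_sum_sq
  have h4 : S * S ≤ S * ((3 * g + 1) * A * Fintype.card V) := by
    calc S * S = S ^ 2 := by ring
      _ ≤ Fintype.card V * ∑ v, (Y v).card ^ 2 := h3
      _ ≤ Fintype.card V * (A * ((3 * g + 1) * S)) := by
          refine Nat.mul_le_mul_left _ (h1.trans (Nat.mul_le_mul_left _ ?_))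
          nlinarith
      _ = _ := by ring
  have h5 : S ≤ (3 * g + 1) * A * Fintype.card V := by
    rcases Nat.eq_zero_or_pos S with h0 | h0
    · rw [h0]; exact Nat.zero_le _
    · exact Nat.le_of_mul_le_mul_left h4 h0
  omega

/-- double counting -/
lemma double_count (F' : SimpleGraph V) (Q : Finset (V × V)) :
    ∑ x, (Q.filter (fun t => F'.Adj x t.1 ∧ F'.Adj x t.2)).card =
      ∑ t ∈ Q, (cn F' t.1 t.2).card := by
  simp only [card_filter, cn]
  rw [sum_comm]
  apply sum_congr rfl
  intro t _
  apply sum_congr rfl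
  intro x _
  simp only [SimpleGraph.adj_comm]

end Pool.Agent.H35.TW2
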