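import Pool.Agent.H35.TW2.Core

set_option autoImplicit false

namespace Pool.Agent.H35.TW2

open Finset Classical

variable {V : Type*} [Fintype V]

/-- pairs with few common neighbours -/
noncomputable def Bd (F' : SimpleGraph V) (g : ℕ) : Finset (V × V) :=
  univ.filter (fun t => (cn F' t.1 t.2).card < g)

/-- deleted pairs -/
noncomputable def Xd (F F' : SimpleGraph V) : Finset (V × V) := Pr F \ Pr F'

lemma pick_arith (N E X A k K' SX SB : ℕ) (hN : 1 ≤ N) (hk : 1 ≤ k) (hE : 0 < E)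
    (hK : K' = 1000 * k ^ 2)
    (hSX : SX ≤ k * X) (hSB : SB ≤ k * N ^ 2)
    (hX : K' * X ≤ (3 * k + 1) * E)
    (hN3 : K' * N ^ 3 ≤ 3 * E ^ 2)
    (hmain : 4 * N * E * E ≤ N * E ^ 2 + 4 * N * E * SX + 16 * N ^ 2 * (32 * k) * SB) : False := by
  have h1 : 4 * N * E * SX ≤ 4 * N * E * (k * X) := Nat.mul_le_mul_left _ hSX
  have h2 : 16 * N ^ 2 * (32 * k) * SB ≤ 16 * N ^ 2 * (32 * k) * (k * N ^ 2) :=
    Nat.mul_le_mul_left _ hSB
  have h3 : 3 * N * E ^ 2 ≤ 4 * N * E * (k * X) + 16 * N ^ 2 * (32 * k) * (k * N ^ 2) := by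
    nlinarith
  have h4 : K' * (3 * N * E ^ 2) ≤ 4 * N * E * k * ((3 * k + 1) * E) +
      16 * 32 * k ^ 2 * N * (3 * E ^ 2) := by
    calc K' * (3 * N * E ^ 2)
        ≤ K' * (4 * N * E * (k * X) + 16 * N ^ 2 * (32 * k) * (k * N ^ 2)) :=
          Nat.mul_le_mul_left _ h3
      _ = 4 * N * E * k * (K' * X) + 16 * 32 * k ^ 2 * N * (K' * N ^ 3) := by ring
      _ ≤ 4 * N * E * k * ((3 * k + 1) * E) + 16 * 32 * k ^ 2 * N * (3 * E ^ 2) :=
          Nat.add_le_add (Nat.mul_le_mul_left _ hX) (Nat.mul_le_mul_left _ hN3)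
  have h5 : 4 * N * E * k * ((3 * k + 1) * E) + 16 * 32 * k ^ 2 * N * (3 * E ^ 2) =
      (12 * k ^ 2 + 4 * k + 1536 * k ^ 2) * (N * E ^ 2) := by ring
  have h6 : K' * (3 * N * E ^ 2) = (3000 * k ^ 2) * (N * E ^ 2) := by rw [hK]; ring
  rw [h5, h6] at h4
  have hpos : 0 < N * E ^ 2 := by positivity
  have h7 := Nat.le_of_mul_le_mul_right h4 hpos
  nlinarith

/-- A vertex whose neighbourhood has few bad pairs and few deleted edges. -/
theorem pick (k : ℕ) (hk : 1 ≤ k) (F F' : SimpleGraph V) (hle : F' ≤ F) (A : ℕ)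
    (hA : ∀ I : Finset V, Ind F I → I.card ≤ A)
    (hX : ∀ a b, F.Adj a b → ¬ F'.Adj a b → (cn F' a b).card < k)
    (hPr : (Pr F).card ≤ (Pr F').card + (3 * k + 1) * A * Fintype.card V)
    (hV : 1 ≤ Fintype.card V)
    (hE : 1000 * k ^ 2 * A * Fintype.card V ≤ (Pr F').card) (hE0 : 0 < (Pr F').card) :
    ∃ x : V, (Pr F').card ≤ 4 * Fintype.card V * (nb F' univ x).card ∧
      ((Xd F F').filter (fun t => F'.Adj x t.1 ∧ F'.Adj x t.2)).card ≤ (nb F' univ x).card ∧
      32 * k * ((Bd F' k).filter (fun t => F'.Adj x t.1 ∧ F'.Adj x t.2)).card ≤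
        (nb F' univ x).card ^ 2 := by
  by_contra hcon
  push Not at hcon
  set N := Fintype.card V with hN
  set E := (Pr F').card with hEdef
  set X := (Xd F F').card with hXdef
  set K' := 1000 * k ^ 2 with hK'
  have hXE : X + E = (Pr F).card := by
    rw [hXdef, hEdef, Xd]
    apply card_sdiff_add_card_eq_card
    intro t ht
    rw [mem_Pr] at *
    exact hle ht
  have hXle : X ≤ (3 * k + 1) * A * N := by omega
  have hKX : K' * X ≤ (3 * k + 1) * E := by
    calc K' * X ≤ K' * ((3 * k + 1) * A * N) := Nat.mul_le_mul_left _ hXle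
      _ = (3 * k + 1) * (K' * A * N) := by ring
      _ ≤ (3 * k + 1) * E := Nat.mul_le_mul_left _ hE
  have hA1 : 1 ≤ A := by
    obtain ⟨v⟩ : Nonempty V := Fintype.card_pos_iff.1 (by omega)
    have := hA {v} (by
      intro a ha b hb
      rw [mem_singleton] at ha hb
      rw [ha, hb]
      exact F.irrefl)
    simpa using this
  have hK1 : 3 * k + 1 ≤ K' := by rw [hK']; nlinarith
  have hXE' : X ≤ E := by
    have h1 : K' * X ≤ K' * E := hKX.trans (Nat.mul_le_mul_right _ hK1)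
    exact Nat.le_of_mul_le_mul_left h1 (by omega)
  have hNE : N ≤ E := by
    calc N = 1 * 1 * N := by ring
      _ ≤ K' * A * N := by gcongr; omega
      _ ≤ E := hE
  -- Turán
  have hN3 : K' * N ^ 3 ≤ 3 * E ^ 2 := by
    obtain ⟨I, _, hI, hc⟩ := turan F _ (univ : Finset V) rfl
    have h1 : EE F univ = (Pr F).card := by rw [Pr_eq]; rfl
    rw [h1, card_univ, ← hN, ← hXE] at hc
    have h2 : N ^ 2 ≤ A * (3 * E) := by
      calc N ^ 2 ≤ I.card * (X + E + N) := hc
        _ ≤ A * (3 * E) := Nat.mul_le_mul (hA I hI) (by omega)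
    calc K' * N ^ 3 = (K' * N) * N ^ 2 := by ring
      _ ≤ (K' * N) * (A * (3 * E)) := Nat.mul_le_mul_left _ h2
      _ = 3 * E * (K' * A * N) := by ring
      _ ≤ 3 * E * E := Nat.mul_le_mul_left _ hE
      _ = 3 * E ^ 2 := by ring
  set SXx : V → ℕ := fun x =>
    ((Xd F F').filter (fun t => F'.Adj x t.1 ∧ F'.Adj x t.2)).card with hSXx
  set SBx : V → ℕ := fun x =>
    ((Bd F' k).filter (fun t => F'.Adj x t.1 ∧ F'.Adj x t.2)).card with hSBx
  have hSX : ∑ x, SXx x ≤ k * X := by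
    rw [hSXx, double_count]
    calc ∑ t ∈ Xd F F', (cn F' t.1 t.2).card ≤ ∑ _t ∈ Xd F F', k := by
          apply sum_le_sum
          intro t ht
          rw [Xd, mem_sdiff, mem_Pr, mem_Pr] at ht
          exact (hX _ _ ht.1 ht.2).le
      _ = k * X := by rw [sum_const, smul_eq_mul, mul_comm]
  have hSB : ∑ x, SBx x ≤ k * N ^ 2 := by
    rw [hSBx, double_count]
    calc ∑ t ∈ Bd F' k, (cn F' t.1 t.2).card ≤ ∑ _t ∈ Bd F' k, k := by
          apply sum_le_sum
          intro t ht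
          rw [Bd, mem_filter] at ht
          exact ht.2.le
      _ = (Bd F' k).card * k := by rw [sum_const, smul_eq_mul]
      _ ≤ N ^ 2 * k := by
          apply Nat.mul_le_mul_right
          refine (card_le_univ _).trans ?_
          rw [Fintype.card_prod, ← hN, sq]
      _ = _ := by ring
  have hpt : ∀ x, 4 * N * E * (nb F' univ x).card ≤
      E ^ 2 + 4 * N * E * SXx x + 16 * N ^ 2 * (32 * k) * SBx x := by
    intro x
    by_cases h1 : E ≤ 4 * N * (nb F' univ x).card
    · by_cases h2 : SXx x ≤ (nb F' univ x).card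
      · have h3 := hcon x h1 h2
        have h4 : 4 * N * E * (nb F' univ x).card ≤ 16 * N ^ 2 * (nb F' univ x).card ^ 2 := by
          calc 4 * N * E * (nb F' univ x).card
              ≤ 4 * N * (4 * N * (nb F' univ x).card) * (nb F' univ x).card := by gcongr
            _ = _ := by ring
        have h5 : 16 * N ^ 2 * (nb F' univ x).card ^ 2 ≤ 16 * N ^ 2 * (32 * k * SBx x) :=
          Nat.mul_le_mul_left _ h3.le
        have h6 : 16 * N ^ 2 * (32 * k * SBx x) = 16 * N ^ 2 * (32 * k) * SBx x := by ring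
        omega
      · push Not at h2
        have h3 : 4 * N * E * (nb F' univ x).card ≤ 4 * N * E * SXx x :=
          Nat.mul_le_mul_left _ h2.le
        omega
    · push Not at h1
      have h3 : 4 * N * E * (nb F' univ x).card ≤ E ^ 2 := by
        calc 4 * N * E * (nb F' univ x).card = E * (4 * N * (nb F' univ x).card) := by ring
          _ ≤ E * E := Nat.mul_le_mul_left _ h1.le
          _ = E ^ 2 := by ring
      omega
  have hmain : 4 * N * E * E ≤ N * E ^ 2 + 4 * N * E * (∑ x, SXx x) +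
      16 * N ^ 2 * (32 * k) * (∑ x, SBx x) := by
    calc 4 * N * E * E = ∑ x : V, 4 * N * E * (nb F' univ x).card := by
          rw [← mul_sum, ← Pr_eq]
      _ ≤ ∑ x : V, (E ^ 2 + 4 * N * E * SXx x + 16 * N ^ 2 * (32 * k) * SBx x) :=
          sum_le_sum (fun x _ => hpt x)
      _ = _ := by
          rw [sum_add_distrib, sum_add_distrib, ← mul_sum, ← mul_sum, sum_const, smul_eq_mul,
            card_univ]
  exact pick_arith N E X A k K' _ _ hV hk hE0 hK' hSX hSB hKX hN3 hmain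

end Pool.Agent.H35.TW2
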