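import Pool.Agent.H35.TW2.Basic

set_option autoImplicit false

namespace Pool.Agent.H35.TW2

open Finset Classical

variable {V : Type*} [Fintype V]

/-- ordered adjacent pairs -/
noncomputable def Pr (F : SimpleGraph V) : Finset (V × V) :=
  univ.filter (fun t => F.Adj t.1 t.2)

/-- ordered triangles -/
noncomputable def Tr (F : SimpleGraph V) : Finset (V × V × V) :=
  univ.filter (fun t => F.Adj t.1 t.2.1 ∧ F.Adj t.2.1 t.2.2 ∧ F.Adj t.1 t.2.2)

lemma mem_Pr {F : SimpleGraph V} {t : V × V} : t ∈ Pr F ↔ F.Adj t.1 t.2 := by simp [Pr]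

lemma mem_Tr {F : SimpleGraph V} {t : V × V × V} :
    t ∈ Tr F ↔ F.Adj t.1 t.2.1 ∧ F.Adj t.2.1 t.2.2 ∧ F.Adj t.1 t.2.2 := by simp [Tr]

/-- common neighbours -/
noncomputable def cn (F : SimpleGraph V) (a b : V) : Finset V :=
  univ.filter (fun w => F.Adj a w ∧ F.Adj b w)

lemma mem_cn {F : SimpleGraph V} {a b w : V} : w ∈ cn F a b ↔ F.Adj a w ∧ F.Adj b w := by
  simp [cn]

lemma Pr_delete (F : SimpleGraph V) (a b : V) (hab : F.Adj a b) :
    (Pr (F.deleteEdges {s(a, b)})).card + 2 ≤ (Pr F).card := by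
  have hne : a ≠ b := hab.ne
  have h1 : Pr (F.deleteEdges {s(a, b)}) ∪ {(a, b), (b, a)} ⊆ Pr F := by
    intro t ht
    rw [mem_union] at ht
    rw [mem_Pr]
    rcases ht with ht | ht
    · rw [mem_Pr, SimpleGraph.deleteEdges_adj] at ht
      exact ht.1
    · simp only [mem_insert, mem_singleton] at ht
      rcases ht with rfl | rfl
      · exact hab
      · exact hab.symm
  have h2 : Disjoint (Pr (F.deleteEdges {s(a, b)})) {(a, b), (b, a)} := by
    rw [Finset.disjoint_left]
    intro t ht ht'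
    rw [mem_Pr, SimpleGraph.deleteEdges_adj] at ht
    simp only [mem_insert, mem_singleton] at ht'
    apply ht.2
    rcases ht' with rfl | rfl
    · simp
    · simp [Sym2.eq_swap]
  have h3 : ({(a, b), (b, a)} : Finset (V × V)).card = 2 := by
    rw [card_pair]
    intro h
    exact hne (Prod.mk.inj h).1
  calc _ = (Pr (F.deleteEdges {s(a, b)}) ∪ {(a, b), (b, a)}).card := by
        rw [card_union_of_disjoint h2, h3]
    _ ≤ _ := card_le_card h1

lemma Tr_delete (F : SimpleGraph V) (a b : V) :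
    (Tr F).card ≤ (Tr (F.deleteEdges {s(a, b)})).card + 6 * (cn F a b).card := by
  set C := cn F a b with hC
  set A1 := (Tr F).filter (fun t => s(t.1, t.2.1) = s(a, b)) with hA1
  set A2 := (Tr F).filter (fun t => s(t.2.1, t.2.2) = s(a, b)) with hA2
  set A3 := (Tr F).filter (fun t => s(t.1, t.2.2) = s(a, b)) with hA3
  have h1 : A1.card ≤ 2 * C.card := by
    have hsub : A1 ⊆ C.image (fun w => (a, b, w)) ∪ C.image (fun w => (b, a, w)) := by
      rintro ⟨x, y, z⟩ ht
      rw [hA1, mem_filter, mem_Tr, Sym2.eq_iff] at ht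
      obtain ⟨⟨_, hyz, hxz⟩, ⟨rfl, rfl⟩ | ⟨rfl, rfl⟩⟩ := ht
      · exact mem_union_left _ (mem_image.2 ⟨z, mem_cn.2 ⟨hxz, hyz⟩, rfl⟩)
      · exact mem_union_right _ (mem_image.2 ⟨z, mem_cn.2 ⟨hyz, hxz⟩, rfl⟩)
    refine (card_le_card hsub).trans ((card_union_le _ _).trans ?_)
    have e1 := card_image_le (s := C) (f := fun w => (a, b, w))
    have e2 := card_image_le (s := C) (f := fun w => (b, a, w))
    omega
  have h2 : A2.card ≤ 2 * C.card := by
    have hsub : A2 ⊆ C.image (fun w => (w, a, b)) ∪ C.image (fun w => (w, b, a)) := by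
      rintro ⟨x, y, z⟩ ht
      rw [hA2, mem_filter, mem_Tr, Sym2.eq_iff] at ht
      obtain ⟨⟨hxy, _, hxz⟩, ⟨rfl, rfl⟩ | ⟨rfl, rfl⟩⟩ := ht
      · exact mem_union_left _ (mem_image.2 ⟨x, mem_cn.2 ⟨hxy.symm, hxz.symm⟩, rfl⟩)
      · exact mem_union_right _ (mem_image.2 ⟨x, mem_cn.2 ⟨hxz.symm, hxy.symm⟩, rfl⟩)
    refine (card_le_card hsub).trans ((card_union_le _ _).trans ?_)
    have e1 := card_image_le (s := C) (f := fun w => (w, a, b))
    have e2 := card_image_le (s := C) (f := fun w => (w, b, a))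
    omega
  have h3 : A3.card ≤ 2 * C.card := by
    have hsub : A3 ⊆ C.image (fun w => (a, w, b)) ∪ C.image (fun w => (b, w, a)) := by
      rintro ⟨x, y, z⟩ ht
      rw [hA3, mem_filter, mem_Tr, Sym2.eq_iff] at ht
      obtain ⟨⟨hxy, hyz, _⟩, ⟨rfl, rfl⟩ | ⟨rfl, rfl⟩⟩ := ht
      · exact mem_union_left _ (mem_image.2 ⟨y, mem_cn.2 ⟨hxy, hyz.symm⟩, rfl⟩)
      · exact mem_union_right _ (mem_image.2 ⟨y, mem_cn.2 ⟨hyz.symm, hxy⟩, rfl⟩)
    refine (card_le_card hsub).trans ((card_union_le _ _).trans ?_)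
    have e1 := card_image_le (s := C) (f := fun w => (a, w, b))
    have e2 := card_image_le (s := C) (f := fun w => (b, w, a))
    omega
  have hcov : Tr F ⊆ Tr (F.deleteEdges {s(a, b)}) ∪ (A1 ∪ (A2 ∪ A3)) := by
    intro t ht
    by_cases e1 : s(t.1, t.2.1) = s(a, b)
    · exact mem_union_right _ (mem_union_left _ (mem_filter.2 ⟨ht, e1⟩))
    by_cases e2 : s(t.2.1, t.2.2) = s(a, b)
    · exact mem_union_right _ (mem_union_right _ (mem_union_left _ (mem_filter.2 ⟨ht, e2⟩)))
    by_cases e3 : s(t.1, t.2.2) = s(a, b)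
    · exact mem_union_right _ (mem_union_right _ (mem_union_right _ (mem_filter.2 ⟨ht, e3⟩)))
    apply mem_union_left
    rw [mem_Tr] at ht ⊢
    simp only [SimpleGraph.deleteEdges_adj, Set.mem_singleton_iff]
    exact ⟨⟨ht.1, e1⟩, ⟨ht.2.1, e2⟩, ⟨ht.2.2, e3⟩⟩
  have := card_le_card hcov
  have u1 := card_union_le (Tr (F.deleteEdges {s(a, b)})) (A1 ∪ (A2 ∪ A3))
  have u2 := card_union_le A1 (A2 ∪ A3)
  have u3 := card_union_le A2 A3
  omega

/-- If every subgraph of `F` with an edge has an edge with fewer than `k` common neighbours, then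
`F` has at most `3 k` times as many ordered triangles as ordered edges. -/
lemma few_triangles (k : ℕ) : ∀ (n : ℕ) (F : SimpleGraph V), (Pr F).card ≤ n →
    (∀ F' : SimpleGraph V, F' ≤ F → (∃ a b, F'.Adj a b) →
      ∃ a b, F'.Adj a b ∧ (cn F' a b).card < k) →
    (Tr F).card ≤ 3 * k * (Pr F).card := by
  intro n
  induction n using Nat.strong_induction_on with
  | _ n ih =>
    intro F hn hF
    by_cases he : ∃ a b, F.Adj a b
    · obtain ⟨a, b, hab, hc⟩ := hF F le_rfl he
      have h1 := Pr_delete F a b hab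
      have h2 := Tr_delete F a b
      have h3 := ih (Pr (F.deleteEdges {s(a, b)})).card (by omega) (F.deleteEdges {s(a, b)}) le_rfl
        (fun F' hF' => hF F' (hF'.trans (SimpleGraph.deleteEdges_le _)))
      nlinarith
    · have : Tr F = ∅ := by
        rw [eq_empty_iff_forall_notMem]
        intro t ht
        rw [mem_Tr] at ht
        exact he ⟨_, _, ht.1⟩
      rw [this]
      simp

end Pool.Agent.H35.TW2
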